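import Pool.Agent.TG.FDefs
import Pool.Agent.H22.TB.Defs
import Pool.Agent.H23.GU.Defs

/-!
# G3 FDefs: projective manifolds of dimension `n + 1` over complex tori of dimension `n`, with arbitrary singular fibres: the definitions of the final theorem

`X` is a smooth projective variety of dimension `n + 1`, `n = k + 1` (in the final theorem `n = 2`), `u` a holomorphic map from `X` to a complex torus `ℂ^n / Λ`.
`D ⊆ ℂ^n` is a `Λ`-invariant analytic subset outside which `u` is a submersion; outside the set `B`, finite modulo `Λ`, the set `D` is smooth and the map `u` is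
`(x^a y^b, s)` in suitable local coordinates (`IsSingularLocus`).  The other data are

* `HasTopForms`: holomorphic `(n + 1)`-forms on `X` with values in the dual of a positive line bundle of the torus (on a finite covering `X'` induced from the torus), without
  common zero outside `D`;
* `HasSymmetricForms`: symmetric differentials of `X` with values in `O(-1)` and in a line bundle of the torus, without common zero outside `D`;
* `HasJetForms`: for every direction `ν` a jet differential with values in `O(-1)`, not `0`, on the curves in `X` over lines in the direction `ν`, holomorphic where `u` is a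
  submersion.

`x`, `v` are homogeneous coordinates and tangent vectors of the cone over `X`.
-/

set_option autoImplicit false

open Topology Filter MvPolynomial
open Pool.Agent.H17 (PN VanishesAt HolomorphicInto puncturedDisc)
open Pool.Agent.H62.FC (Homog)
open Pool.Agent.H17LG.Variety (FunField IsLogGeneralType)
open Pool.Agent.H17EF (projVar)
open Pool.Agent.H17G (IsTangent)
open Pool.Agent.TGF (Cn Over Submersion NormalCrossing IsCoord IsAnalyticSubset)
open Pool.Agent.H22.TB (GGLC)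
open Pool.Agent.H23.GU (IsEtaleCovering)

noncomputable section

namespace Pool.Agent.G3F

variable {N k : ℕ}

/-- `D` contains the critical values of `u`, and the map is of normal crossing type over `D \ B`. -/
structure IsSingularLocus (X : Set (PN N)) (Λ : AddSubgroup (Cn (k + 1))) (u : PN N → Cn (k + 1) ⧸ Λ) (D B : Set (Cn (k + 1))) : Prop where
  analytic : IsAnalyticSubset D
  proper : D ≠ Set.univ
  invariant : ∀ y ∈ D, ∀ l ∈ Λ, y + l ∈ D
  /-- the set `B` is finite modulo `Λ` -/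
  small : ∃ S : Set (Cn (k + 1)), S.Finite ∧ ∀ b ∈ B, ∃ s ∈ S, b - s ∈ Λ
  submersion : ∀ y ∉ D, ∀ x ∈ X, u x = (y : Cn (k + 1) ⧸ Λ) → Submersion X Λ u y x
  crossing : ∀ y ∈ D, y ∉ B → ∃ κ : Cn (k + 1) → Cn (k + 1), IsCoord D κ y ∧ ∀ x ∈ X, u x = (y : Cn (k + 1) ⧸ Λ) → NormalCrossing X Λ u κ x

/-- The function `∑ |W i y|²`, for linear forms `W i`. -/
def weight {r : ℕ} (W : Fin r → Cn (k + 1) →L[ℂ] ℂ) (y : Cn (k + 1)) : ℝ := ∑ i, ‖W i y‖ ^ 2

/-- `Ω` is a holomorphic `(k + 2)`-form on `{(x, y) : u x = y mod Λ}` which is quasi-periodic for `Γ`, with the factors of the theta functions of the weight `W`: the function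
`|Ω| exp (weight W y)` is `Γ`-periodic. -/
structure IsTwistedTopForm (X : Set (PN N)) (Λ Γ : AddSubgroup (Cn (k + 1))) (u : PN N → Cn (k + 1) ⧸ Λ) {r : ℕ} (W : Fin r → Cn (k + 1) →L[ℂ] ℂ)
    (Ω : Cn (k + 1) → Cn (N + 1) → (Fin (k + 2) → Cn (N + 1)) → ℂ) : Prop where
  quasiPeriodic : ∀ l ∈ Γ, ∃ (L : Cn (k + 1) →L[ℂ] ℂ) (c : ℂ), (∀ y, ‖Complex.exp (L y + c)‖ = Real.exp (weight W y - weight W (y + l))) ∧
    ∀ y x, Over X Λ u y x → ∀ v : Fin (k + 2) → Cn (N + 1), (∀ i, IsTangent X x (v i)) → Ω (y + l) x v = Complex.exp (L y + c) * Ω y x v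
  /-- the form depends only on the images of the tangent vectors in the tangent space of the projective space -/
  horizontal : ∀ y x, Over X Λ u y x → ∀ v : Fin (k + 2) → Cn (N + 1), (∀ i, IsTangent X x (v i)) → ∀ a : Fin (k + 2) → ℂ,
    Ω y x (fun i => v i + a i • x) = Ω y x v
  /-- the form is multilinear and alternating -/
  alternating : ∀ y x, Over X Λ u y x → ∀ v : Fin (k + 2) → Cn (N + 1), (∀ i, IsTangent X x (v i)) → ∀ A : Matrix (Fin (k + 2)) (Fin (k + 2)) ℂ,
    Ω y x (fun i => ∑ j, A i j • v j) = A.det * Ω y x v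
  /-- the form does not depend on the choice of the homogeneous coordinates -/
  homogeneous : ∀ y x, Over X Λ u y x → ∀ v : Fin (k + 2) → Cn (N + 1), (∀ i, IsTangent X x (v i)) → ∀ c : ℂ, c ≠ 0 →
    Ω y (c • x) (fun i => c • v i) = Ω y x v
  /-- the form is holomorphic -/
  holomorphic : ∀ (φ : Cn (k + 2) → Cn (N + 1)) (υ : Cn (k + 2) → Cn (k + 1)) (p : Cn (k + 2)), AnalyticAt ℂ φ p → AnalyticAt ℂ υ p →
    (∀ᶠ q in 𝓝 p, Over X Λ u (υ q) (φ q)) → AnalyticAt ℂ (fun q => Ω (υ q) (φ q) fun i => fderiv ℂ φ q (Pi.single i 1)) p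

/-- There are finitely many holomorphic `(k + 2)`-forms, with the factors of the inverses of theta functions for a subgroup `Γ` of finite index in `Λ` and a positive
definite weight, without common zero outside `D`. -/
def HasTopForms (X : Set (PN N)) (Λ : AddSubgroup (Cn (k + 1))) (u : PN N → Cn (k + 1) ⧸ Λ) (D : Set (Cn (k + 1))) : Prop :=
  ∃ (Γ : AddSubgroup (Cn (k + 1))) (r J : ℕ) (W : Fin r → Cn (k + 1) →L[ℂ] ℂ) (Ω : Fin J → Cn (k + 1) → Cn (N + 1) → (Fin (k + 2) → Cn (N + 1)) → ℂ),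
    Γ ≤ Λ ∧ Submodule.span ℝ (Γ : Set (Cn (k + 1))) = ⊤ ∧ (∀ y, (∀ i, W i y = 0) → y = 0) ∧ (∀ j, IsTwistedTopForm X Λ Γ u W (Ω j)) ∧
    ∀ y ∉ D, ∀ x, Over X Λ u y x → ∃ (j : Fin J) (v : Fin (k + 2) → Cn (N + 1)), (∀ i, IsTangent X x (v i)) ∧ Ω j y x v ≠ 0

/-- `S` is a symmetric differential of degree `m` on `{(x, y) : u x = y mod Λ}` with values in `O(-1)`, quasi-periodic for `Λ`, with the factors of the theta functions of the
weight `W`. -/
structure IsTwistedSymmetricForm (X : Set (PN N)) (Λ : AddSubgroup (Cn (k + 1))) (u : PN N → Cn (k + 1) ⧸ Λ) (m : ℕ) {r : ℕ} (W : Fin r → Cn (k + 1) →L[ℂ] ℂ)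
    (S : Cn (k + 1) → Cn (N + 1) → Cn (N + 1) → ℂ) : Prop where
  quasiPeriodic : ∀ y, ∀ l ∈ Λ, ∀ x, Over X Λ u y x → ∀ v, IsTangent X x v →
    ‖S (y + l) x v‖ * Real.exp (-weight W (y + l)) = ‖S y x v‖ * Real.exp (-weight W y)
  /-- the form depends only on the image of the tangent vector in the tangent space of the projective space -/
  horizontal : ∀ y x, Over X Λ u y x → ∀ v, IsTangent X x v → ∀ a : ℂ, S y x (v + a • x) = S y x v
  /-- the degree -/
  degree : ∀ y x, Over X Λ u y x → ∀ v, IsTangent X x v → ∀ a : ℂ, S y x (a • v) = a ^ m * S y x v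
  /-- the values are in `O(-1)` -/
  homogeneous : ∀ y x, Over X Λ u y x → ∀ v, IsTangent X x v → ∀ c : ℂ, c ≠ 0 → c * S y (c • x) (c • v) = S y x v
  /-- the form is holomorphic -/
  holomorphic : ∀ (r : ℕ) (φ : Cn r → Cn (N + 1)) (υ : Cn r → Cn (k + 1)) (p w : Cn r), AnalyticAt ℂ φ p → AnalyticAt ℂ υ p →
    (∀ᶠ q in 𝓝 p, Over X Λ u (υ q) (φ q)) → AnalyticAt ℂ (fun q : Cn r × Cn r => S (υ q.1) (φ q.1) (fderiv ℂ φ q.1 q.2)) (p, w)

/-- There are finitely many symmetric differentials of some degree `m ≥ 1`, with values in `O(-1)` and in a line bundle of the torus, such that for every tangent vector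
`v ≠ 0` of `X` at a point outside `u⁻¹ (D)` one of them is not `0` at `v`. -/
def HasSymmetricForms (X : Set (PN N)) (Λ : AddSubgroup (Cn (k + 1))) (u : PN N → Cn (k + 1) ⧸ Λ) (D : Set (Cn (k + 1))) : Prop :=
  ∃ (m r J : ℕ) (W : Fin r → Cn (k + 1) →L[ℂ] ℂ) (S : Fin J → Cn (k + 1) → Cn (N + 1) → Cn (N + 1) → ℂ), 1 ≤ m ∧
    (∀ j, IsTwistedSymmetricForm X Λ u m W (S j)) ∧ ∀ y ∉ D, ∀ x, Over X Λ u y x → ∀ v, IsTangent X x v → (∀ j, S j y x v = 0) → ∃ c : ℂ, v = c • x

/-- The curve `φ`, given by homogeneous coordinates, is near `0` a holomorphic curve in `X` over a line in the direction `ν`. -/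
def IsCurveOver (X : Set (PN N)) (Λ : AddSubgroup (Cn (k + 1))) (u : PN N → Cn (k + 1) ⧸ Λ) (ν : Cn (k + 1)) (φ : ℂ → Cn (N + 1)) : Prop :=
  AnalyticAt ℂ φ 0 ∧ ∃ y, ∀ᶠ t in 𝓝 (0 : ℂ), Over X Λ u (y + t • ν) (φ t)

/-- The derivatives of order at most `m` of `φ` at `0`. -/
def jet (m : ℕ) (φ : ℂ → Cn (N + 1)) : Fin (m + 1) → Cn (N + 1) := fun j => iteratedDeriv j φ 0

/-- `Ψ` is a jet differential of order `m`, with values in `O(-1)`, on the holomorphic curves over lines in the direction `ν`, in the open set of `X` on which `u` is a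
submersion; it is `0` on no nonempty open set. -/
structure IsJetForm (X : Set (PN N)) (Λ : AddSubgroup (Cn (k + 1))) (u : PN N → Cn (k + 1) ⧸ Λ) (ν : Cn (k + 1)) (m : ℕ)
    (Ψ : (Fin (m + 1) → Cn (N + 1)) → ℂ) : Prop where
  /-- the values are in `O(-1)` -/
  homogeneous : ∀ φ : ℂ → Cn (N + 1), IsCurveOver X Λ u ν φ → ∀ c : ℂ → ℂ, AnalyticAt ℂ c 0 → c 0 ≠ 0 →
    Ψ (jet m fun t => c t • φ t) = (c 0)⁻¹ * Ψ (jet m φ)
  /-- the form is holomorphic at the points at which `u` is a submersion -/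
  holomorphic : ∀ (r : ℕ) (φ : Cn r × ℂ → Cn (N + 1)) (p : Cn r), AnalyticAt ℂ φ (p, 0) →
    (∃ (y : Cn (k + 1)) (h : φ (p, 0) ≠ 0), Submersion X Λ u y (Projectivization.mk ℂ (φ (p, 0)) h)) →
    (∀ᶠ q : Cn r × ℂ in 𝓝 (p, 0), ∃ y, Over X Λ u y (φ (q.1, 0)) ∧ Over X Λ u (y + q.2 • ν) (φ q)) → AnalyticAt ℂ (fun q => Ψ (jet m fun t => φ (q, t))) p
  nonzero : ∀ y x, Over X Λ u y x → ∀ U ∈ 𝓝 x, ∃ φ, IsCurveOver X Λ u ν φ ∧ φ 0 ∈ U ∧ Ψ (jet m φ) ≠ 0

/-- For every direction `ν` there is a jet differential with values in `O(-1)`, not `0`, on the curves in `X` over lines in the direction `ν`. -/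
def HasJetForms (X : Set (PN N)) (Λ : AddSubgroup (Cn (k + 1))) (u : PN N → Cn (k + 1) ⧸ Λ) : Prop :=
  ∀ ν : Cn (k + 1), ν ≠ 0 → ∃ (m : ℕ) (Ψ : (Fin (m + 1) → Cn (N + 1)) → ℂ), IsJetForm X Λ u ν m Ψ

/-- The Kobayashi-Royden metric of `X` is bounded below near the point `x`: for all holomorphic maps `f` from the unit disc to `X` with `f 0` near `x` (`F` is a
lift of `f` near `0`, with `F 0` near a representative of `x`) the length of the derivative of `f` at `0` with respect to the Fubini-Study metric is at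
most `C`. -/
def MetricPositiveAt (X : Set (PN N)) (x : PN N) : Prop :=
  ∃ C : ℝ, ∀ᶠ v in 𝓝 x.rep, ∀ (f : ℂ → PN N) (F : ℂ → Cn (N + 1)), HolomorphicInto f (Metric.ball 0 1) →
    (∀ z ∈ Metric.ball (0 : ℂ) 1, f z ∈ X) → AnalyticAt ℂ F 0 →
    (∀ᶠ z in 𝓝 (0 : ℂ), ∃ h : F z ≠ 0, f z = Projectivization.mk ℂ (F z) h) → F 0 = v →
    ∃ a : ℂ, ‖deriv F 0 - a • F 0‖ ≤ C * ‖F 0‖

/-- The conclusion, for the variety `X` of dimension `k + 2` given by `P`: `X` is hyperbolic modulo the hypersurface `Q = 0`. -/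
structure TorusHyperbolic (P : Ideal (MvPolynomial (Fin (N + 1)) ℂ)) [P.IsPrime] (Λ : AddSubgroup (Cn (k + 1))) (u : PN N → Cn (k + 1) ⧸ Λ)
    (D : Set (Cn (k + 1))) (Q : MvPolynomial (Fin (N + 1)) ℂ) : Prop where
  /-- the form `Q` is not `0` on `X` -/
  form : (∃ e, Q.IsHomogeneous e) ∧ Q ∉ P
  /-- it is `0` on the fibres over `D` -/
  singular : ∀ x ∈ projVar P, (∃ y ∈ D, u x = (y : Cn (k + 1) ⧸ Λ)) → VanishesAt Q x
  /-- there are finitely many holomorphic maps to `X` over the complement of `D` such that every entire curve over an affine line is one of them -/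
  lines : ∃ S : Set (Cn (k + 1) → PN N), S.Finite ∧ (∀ Φ ∈ S, ∀ y ∉ D, ∃ φ : Cn (k + 1) → Cn (N + 1), AnalyticAt ℂ φ y ∧
      ∀ᶠ z in 𝓝 y, Over (projVar P) Λ u z (φ z) ∧ ∃ h : φ z ≠ 0, Φ z = Projectivization.mk ℂ (φ z) h) ∧
    ∀ f : ℂ → PN N, HolomorphicInto f Set.univ → (∀ z, f z ∈ projVar P) → ∀ a b : Cn (k + 1), a ≠ 0 →
      (∀ z, u (f z) = ((z • a + b : Cn (k + 1)) : Cn (k + 1) ⧸ Λ)) → ∃ Φ ∈ S, ∀ z : ℂ, z • a + b ∉ D → f z = Φ (z • a + b)
  /-- it is `0` on all nonconstant entire curves -/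
  brody : ∀ f : ℂ → PN N, HolomorphicInto f Set.univ → (∀ z, f z ∈ projVar P) → (∃ z w, f z ≠ f w) → ∀ z, VanishesAt Q (f z)
  /-- every holomorphic map from the punctured disc to `X` which is not a map into `{Q = 0}` extends -/
  picard : ∀ f : ℂ → PN N, HolomorphicInto f puncturedDisc → (∀ z ∈ puncturedDisc, f z ∈ projVar P) → (∃ z ∈ puncturedDisc, ¬ VanishesAt Q (f z)) →
    ∃ g : ℂ → PN N, HolomorphicInto g (Metric.ball 0 1) ∧ ∀ z ∈ puncturedDisc, g z = f z
  /-- the Kobayashi-Royden metric is bounded below near every point of `X \ {Q = 0}` -/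
  kobayashi : ∀ x ∈ projVar P, ¬ VanishesAt Q x → MetricPositiveAt (projVar P) x
  /-- if `X` is of general type then it has the properties of the conjecture with the exceptional set `{Q = 0}` -/
  ggl : IsLogGeneralType (K := FunField P) (k := k + 2) (fun _ => False) → GGLC P {x | x ∈ projVar P ∧ VanishesAt Q x}
  /-- if `X` is of general type, then every projective variety `Y` of general type, of the same dimension, with a finite étale covering `Y'` and a dominant rational map from `Y'`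
  to `X` has the properties of the conjecture -/
  virtual : IsLogGeneralType (K := FunField P) (k := k + 2) (fun _ => False) →
    ∀ (M L : ℕ) (P' : Ideal (MvPolynomial (Fin (M + 1)) ℂ)) [P'.IsPrime] (R : Ideal (MvPolynomial (Fin (L + 1)) ℂ)) [R.IsPrime] (q : PN M → PN L),
    Homog P' → Homog R → (∃ z : Fin (k + 2) → FunField P', IsTranscendenceBasis ℂ z) → (∃ z : Fin (k + 2) → FunField R, IsTranscendenceBasis ℂ z) →
    Nonempty (FunField P →ₐ[ℂ] FunField P') → IsEtaleCovering R P' q → IsLogGeneralType (K := FunField R) (k := k + 2) (fun _ => False) →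
    ∃ Ξ : Set (PN L), GGLC R Ξ

end Pool.Agent.G3F
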