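import Pool.Agent.G3.CvA
import Pool.Agent.H19T.FCur
import Pool.Agent.G3.F.FDefs

/-!
# G3 F LiftH: lifts of curves on discs to `ℂ^(k+1)`

As `H19T.exists_lift_torus` (`H19T/FCur`), on discs: locally `u (F z) - v (F z) ∈ Λ` with `v` analytic (`TMap.loc`), `Λ` discrete; the derivatives of the local functions `v (F z)` agree and have a primitive on the disc.
-/

set_option autoImplicit false

open Topology Filter Metric MvPolynomial

namespace Pool.Agent.G3

open Pool.Agent.H17 (PN VanishesAt HolomorphicInto puncturedDisc)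
open Pool.Agent.H62.FC (Homog)
open Pool.Agent.H17LG.Variety (FunField IsLogGeneralType)
open Pool.Agent.H17EF (projVar coneE LE mem_coneE mk_mem_projVar)
open Pool.Agent.H36.BP (EN fs wd Sub Curve)
open Pool.Agent.H14.PP (IsCone CurveAt Tan)
open Pool.Agent.H62.EF (MN pr)
open Pool.Agent.AD (Vd Chart Charts uV IsHolomorphicTorusMap)
open Pool.Agent.TG (TMap Lat Geo Gd VForm Fb)
open Pool.Agent.TGF (Cn Over IsDiscriminant)
open Pool.Agent.G3F

variable {N k : ℕ} {X : Set (EN N)} {Λ : AddSubgroup (Vd (k + 1))} {u : EN N → Vd (k + 1)} {D : Set (Vd (k + 1))} {p : EN N → EN N → ℝ} {m d : ℕ} {C C₁ : ℝ}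
  {Q : EN N → ℂ}

/-- local lifts with values in a vector space modulo a discrete subgroup glue on a disc -/
private theorem glue_disc {E : Type*} [NormedAddCommGroup E] [NormedSpace ℂ E] [CompleteSpace E] {Λ : AddSubgroup E} {δ : ℝ} (hδ : 0 < δ)
    (hΛ : ∀ l ∈ Λ, ‖l‖ < δ → l = 0) {w : ℂ → E} {c : ℂ} {r : ℝ}
    (hloc : ∀ z₀ ∈ ball c r, ∃ h : ℂ → E, AnalyticAt ℂ h z₀ ∧ ∀ᶠ z in 𝓝 z₀, w z - h z ∈ Λ) :
    ∃ h : ℂ → E, DifferentiableOn ℂ h (ball c r) ∧ ∀ z ∈ ball c r, w z - h z ∈ Λ := by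
  classical
  rcases le_or_gt r 0 with hr | hr
  · refine ⟨fun _ => 0, differentiableOn_const _, fun z hz => ?_⟩
    rw [ball_eq_empty.mpr hr] at hz
    exact hz.elim
  have hcc : c ∈ ball c r := mem_ball_self hr
  choose! H hHan hHmem using hloc
  obtain ⟨ψ, hψ⟩ : ∃ ψ : ℂ → E, ψ = fun z => deriv (H z) z := ⟨_, rfl⟩
  -- the local derivatives agree
  have hagree : ∀ z₀ ∈ ball c r, ψ =ᶠ[𝓝 z₀] deriv (H z₀) := by
    intro z₀ hz₀
    filter_upwards [isOpen_ball.mem_nhds hz₀, (hHan z₀ hz₀).eventually_analyticAt, (hHmem z₀ hz₀).eventually_nhds] with z h1 h2 h3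
    rw [hψ]
    have h4 : ContinuousAt (fun y => H z y - H z₀ y) z := (hHan z h1).continuousAt.sub h2.continuousAt
    have h5 : ∀ᶠ y in 𝓝 z, ‖(H z y - H z₀ y) - (H z z - H z₀ z)‖ < δ := by
      have h6 : Tendsto (fun y => (H z y - H z₀ y) - (H z z - H z₀ z)) (𝓝 z) (𝓝 ((H z z - H z₀ z) - (H z z - H z₀ z))) := h4.tendsto.sub_const _
      rw [sub_self] at h6
      have h7 := h6.norm
      rw [norm_zero] at h7
      exact h7.eventually (gt_mem_nhds hδ)
    have h8 : H z =ᶠ[𝓝 z] fun y => H z₀ y + (H z z - H z₀ z) := by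
      have h9 := (hHmem z h1).self_of_nhds
      have h10 := h3.self_of_nhds
      filter_upwards [h5, hHmem z h1, h3] with y h11 h12 h13
      have h14 : (H z y - H z₀ y) - (H z z - H z₀ z) ∈ Λ := by
        have h15 := Λ.sub_mem (Λ.sub_mem h13 h12) (Λ.sub_mem h10 h9)
        have h16 : w y - H z₀ y - (w y - H z y) - (w z - H z₀ z - (w z - H z z)) = (H z y - H z₀ y) - (H z z - H z₀ z) := by abel
        rwa [h16] at h15
      have h17 := hΛ _ h14 h11
      rw [sub_eq_zero, sub_eq_iff_eq_add] at h17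
      rw [h17]
      abel
    change deriv (H z) z = deriv (H z₀) z
    rw [h8.deriv_eq, deriv_add_const]
  have hψd : DifferentiableOn ℂ ψ (ball c r) := by
    intro z₀ hz₀
    have h1 : DifferentiableAt ℂ (deriv (H z₀)) z₀ := (hHan z₀ hz₀).deriv.differentiableAt
    exact (h1.congr_of_eventuallyEq (hagree z₀ hz₀)).differentiableWithinAt
  obtain ⟨g, hg⟩ := hψd.isExactOn_ball
  refine ⟨fun z => g z + (w c - g c), fun z hz => ((hg z hz).differentiableAt.add_const _).differentiableWithinAt, ?_⟩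
  -- the difference is locally constant modulo the subgroup
  have hind : ∀ x ∈ ball c r, ∀ y ∈ ball c r, (w x - g x) - (w y - g y) ∈ Λ := by
    intro x hx y hy
    refine (convex_ball c r).isPreconnected.induction₂ (fun x y => (w x - g x) - (w y - g y) ∈ Λ) ?_ ?_ ?_ hx hy
    · intro z₀ hz₀
      apply mem_nhdsWithin_of_mem_nhds
      have hder : ∀ᶠ z in 𝓝 z₀, HasDerivAt (fun z => H z₀ z - g z) 0 z := by
        filter_upwards [isOpen_ball.mem_nhds hz₀, (hHan z₀ hz₀).eventually_analyticAt, hagree z₀ hz₀] with z h1 h2 h3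
        have h4 := h2.differentiableAt.hasDerivAt.sub (hg z h1)
        rwa [h3, sub_self] at h4
      obtain ⟨ε, hε, hball⟩ := Metric.eventually_nhds_iff_ball.1 hder
      have hconst : ∀ z ∈ ball z₀ ε, H z₀ z - g z = H z₀ z₀ - g z₀ := by
        intro z hz
        exact (convex_ball z₀ ε).is_const_of_fderivWithin_eq_zero (𝕜 := ℂ) (f := fun z => H z₀ z - g z)
          (fun y hy => (hball y hy).differentiableAt.differentiableWithinAt)
          (fun y hy => by
            rw [fderivWithin_of_isOpen isOpen_ball hy]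
            ext1
            exact (hball y hy).deriv) hz (mem_ball_self hε)
      have h0 := (hHmem z₀ hz₀).self_of_nhds
      filter_upwards [hHmem z₀ hz₀, isOpen_ball.mem_nhds (mem_ball_self hε)] with z h1 h2
      have h3 := hconst z h2
      have h4 := Λ.sub_mem h0 h1
      have h5 : (w z₀ - g z₀) - (w z - g z) = (w z₀ - H z₀ z₀ - (w z - H z₀ z)) + ((H z₀ z₀ - g z₀) - (H z₀ z - g z)) := by abel
      change (w z₀ - g z₀) - (w z - g z) ∈ Λ
      rw [h5, h3, sub_self, add_zero]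
      exact h4
    · intro x y z _ _ _ h1 h2
      have h3 := Λ.add_mem h1 h2
      have h4 : (w x - g x) - (w z - g z) = ((w x - g x) - (w y - g y)) + ((w y - g y) - (w z - g z)) := by abel
      rw [h4]
      exact h3
    · intro x y _ _ h1
      have h2 := Λ.neg_mem h1
      rwa [neg_sub] at h2
  intro z hz
  have h1 := hind z hz c hcc
  have h2 : w z - (g z + (w c - g c)) = (w z - g z) - (w c - g c) := by abel
  rw [h2]
  exact h1

theorem exists_cv (hX : IsCone X) (hu : TMap X Λ u) (hΛ : Lat Λ) {F : ℂ → EN N} {c : ℂ} {r : ℝ} (hF : DifferentiableOn ℂ F (ball c r)) (hFX : ∀ z ∈ ball c r, F z ∈ X) :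
    ∃ h : ℂ → Vd (k + 1), Cv X Λ u (ball c r) F h := by
  obtain ⟨δ, hδ, hd⟩ := hΛ.disc
  obtain ⟨h, h1, h2⟩ := glue_disc (Λ := Λ) hδ hd (w := fun z => u (F z)) (c := c) (r := r) (by
    intro z₀ hz₀
    obtain ⟨v, hv, hm⟩ := hu.loc (F z₀) (hFX z₀ hz₀)
    have hFa : AnalyticAt ℂ F z₀ := hF.analyticAt (isOpen_ball.mem_nhds hz₀)
    refine ⟨fun z => v (F z), AnalyticAt.comp (g := v) (f := F) hv hFa, ?_⟩
    filter_upwards [hFa.continuousAt.tendsto.eventually hm, isOpen_ball.mem_nhds hz₀] with z h1 h2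
    exact h1 (hFX z h2))
  exact ⟨h, hF, h1, hFX, h2⟩

end Pool.Agent.G3
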