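import Pool.Agent.G3.R.RDefs
import Pool.Agent.G3.F.LiftH
import Pool.Agent.H19T.Bro

/-!
# G3 F Br: Brody and Kobayashi hyperbolicity in the cone

`brody_cone`: let `Q (F z₀) ≠ 0`.  If `0 < pf p F z` at some point with `Q (F z) ≠ 0`, i.e. `Ok`, then `RootLog` for all `r` (`exists_cv` on `ball z r`; `Lam` depends on the lift `h` only through its derivative, which does not
depend on `r`: the lifts differ by constants; or use that `pf` and `Q` do not depend on `h` and bound `Lam`) gives `pf p F z = 0`, a contradiction.  So `pf p F z = 0` on the dense open set `Q (F z) ≠ 0`; there `h z ∉ D` (`QD.zero`),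
so `fs (F z) (F' z) = 0` by `PS.ge_fs` (`D` closed), and `F` is constant as a map to the projective space near such a point, so everywhere.
(For the dependence on `r`: choose one lift `h` on all of `ℂ`: `exists_cv` on balls with the same centre, the lifts agree up to a constant in `Λ`; `deriv h` is well defined.  `Lam Q d p m F h z` uses only `deriv h z`.)

`kob_cone`: near `x` we have `‖Q v‖ ≥ δ' ‖v‖ ^ d` and `u v` is (modulo `Λ`) in `Gd D δ` (`QD.zero`: `u x ∉ D`, `TMap.loc`, `D` closed and `Λ`-invariant).  If `pf p F 0 = 0` then `fs = 0` by `PS.ge_fs`.  Otherwise `RootLog` with `w = 0`, `r = 1`;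
`Lam = Lq + d Np`, `Lq ≤ log (1 / δ')`, `Np ≤ C` (`PS.ge_fs`, `PS.du`), so `pf ≤ C`, `fs ≤ C`.
-/

set_option autoImplicit false

open Topology Filter Metric MvPolynomial

namespace Pool.Agent.G3

open Pool.Agent.H17 (PN VanishesAt HolomorphicInto puncturedDisc)
open Pool.Agent.H62.FC (Homog)
open Pool.Agent.H17LG.Variety (FunField IsLogGeneralType)
open Pool.Agent.H17EF (projVar coneE LE mem_coneE mk_mem_projVar)
open Pool.Agent.H36.BP (EN fs wd Sub Curve)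
open Pool.Agent.H14.PP (IsCone CurveAt Tan)
open Pool.Agent.H62.EF (MN pr)
open Pool.Agent.AD (Vd Chart Charts uV IsHolomorphicTorusMap)
open Pool.Agent.TG (TMap Lat Geo Gd VForm Fb)
open Pool.Agent.TGF (Cn Over IsDiscriminant)
open Pool.Agent.G3F

variable {N k : ℕ} {X : Set (EN N)} {Λ : AddSubgroup (Vd (k + 1))} {u : EN N → Vd (k + 1)} {D : Set (Vd (k + 1))} {p : EN N → EN N → ℝ} {m d : ℕ} {C C₁ : ℝ}
  {Q : EN N → ℂ}

private theorem br_gd (hDc : IsClosed D) {y₀ : Vd (k + 1)} (hy : y₀ ∉ D) : ∃ δ : ℝ, 0 < δ ∧ ∀ y ∈ ball y₀ δ, y ∈ Gd D δ := by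
  obtain ⟨ε, hε, hb⟩ := Metric.isOpen_iff.1 hDc.isOpen_compl y₀ hy
  refine ⟨ε / 2, half_pos hε, fun y hy b hb' => ?_⟩
  by_contra hcon
  push Not at hcon
  have h1 : b ∈ ball y₀ ε := by
    rw [mem_ball, dist_eq_norm]
    rw [mem_ball, dist_eq_norm] at hy
    calc ‖b - y₀‖ = ‖(y - y₀) - (y - b)‖ := by congr 1; abel
      _ ≤ ‖y - y₀‖ + ‖y - b‖ := norm_sub_le _ _
      _ < ε / 2 + ε / 2 := add_lt_add hy hcon
      _ = ε := add_halves ε
  exact hb h1 hb'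

private theorem br_np {δ c : ℝ} (hP : PS X Λ u D p m C) (hc : 0 < c)
    (hcf : ∀ y ∈ Gd D δ, ∀ x ∈ X, u x - y ∈ Λ → ∀ v, Tan X x v → c * fs x v ^ m ≤ p x v) {U : Set ℂ} (hU : IsOpen U) {F : ℂ → EN N} {h : ℂ → Vd (k + 1)}
    (hF : Cv X Λ u U F h) {z : ℂ} (hz : z ∈ U) {y : Vd (k + 1)} (hy : y ∈ Gd D δ) (huy : u (F z) - y ∈ Λ) (hpos : 0 < pf p F z) :
    Np p m F h z ≤ max 0 (Real.log (C ^ m / c)) := by
  unfold Np
  have hm := hP.m_pos
  by_cases h0 : ‖deriv h z‖ = 0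
  · rw [h0, zero_pow (by omega), div_zero, Real.log_zero, neg_zero, max_self]
    exact le_max_left _ _
  · refine max_le_max le_rfl ?_
    have hh : 0 < ‖deriv h z‖ := lt_of_le_of_ne (norm_nonneg _) (Ne.symm h0)
    have hC : 0 ≤ C := zero_le_one.trans hP.C_ge
    have h1 : c * fs (F z) (deriv F z) ^ m ≤ pf p F z := hcf y hy (F z) (hF.mem z hz) huy _ (hF.tan hU hz)
    have h2 : ‖deriv h z‖ ≤ C * fs (F z) (deriv F z) := hP.du U F h hU hF z hz
    have h3 : ‖deriv h z‖ ^ m ≤ C ^ m * fs (F z) (deriv F z) ^ m := by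
      rw [← mul_pow]
      exact pow_le_pow_left₀ hh.le h2 m
    rw [← Real.log_inv, inv_div]
    refine Real.log_le_log (by positivity) ?_
    rw [div_le_div_iff₀ hpos hc]
    calc ‖deriv h z‖ ^ m * c ≤ C ^ m * fs (F z) (deriv F z) ^ m * c := mul_le_mul_of_nonneg_right h3 hc.le
      _ = C ^ m * (c * fs (F z) (deriv F z) ^ m) := by ring
      _ ≤ C ^ m * pf p F z := mul_le_mul_of_nonneg_left h1 (by positivity)

private theorem br_lq (hQ : QD X Λ u D Q d) (hX : IsCone X) {x : EN N} (hx : x ∈ X) (hx0 : Q x ≠ 0) : 0 ≤ Lq Q d x := by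
  unfold Lq
  have h1 : 0 < ‖Q x‖ := norm_pos_iff.2 hx0
  have h2 := Real.log_le_log h1 (hQ.bound x hx)
  rw [Real.log_pow] at h2
  linarith

/-- the bound for `p` on discs of radius `r` -/
private theorem br_bd {δ c : ℝ} (hX : IsCone X) (hu : TMap X Λ u) (hΛ : Lat Λ) (hP : PS X Λ u D p m C) (hQ : QD X Λ u D Q d)
    (hR : RootLog X Λ u Q d p m C₁) (hc : 0 < c)
    (hcf : ∀ y ∈ Gd D δ, ∀ x ∈ X, u x - y ∈ Λ → ∀ v, Tan X x v → c * fs x v ^ m ≤ p x v) {F : ℂ → EN N} {z : ℂ} {r : ℝ} (hr : 0 < r)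
    (hF : DifferentiableOn ℂ F (ball z r)) (hFX : ∀ w ∈ ball z r, F w ∈ X) {y : Vd (k + 1)} (hy : y ∈ Gd D δ) (huy : u (F z) - y ∈ Λ)
    (hok : Ok Q p F z) :
    r ^ 2 * (pf p F z) ^ (2 / (m : ℝ)) ≤ |C₁| * (1 + (Lq Q d (F z) + d * max 0 (Real.log (C ^ m / c)))) := by
  obtain ⟨h, hh⟩ := exists_cv hX hu hΛ hF hFX
  have hz : z ∈ ball z r := mem_ball_self hr
  have h1 := (hR z r F h hr hh hok).2
  have h2 := br_np hP hc hcf isOpen_ball hh hz hy huy hok.2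
  have h3 := br_lq hQ hX (hFX z hz) hok.1
  have h4 : 0 ≤ Np p m F h z := le_max_left _ _
  have h5 : 0 ≤ 1 + Lam Q d p m F h z := by
    unfold Lam
    positivity
  refine h1.trans ?_
  calc C₁ * (1 + Lam Q d p m F h z) ≤ |C₁| * (1 + Lam Q d p m F h z) := mul_le_mul_of_nonneg_right (le_abs_self _) h5
    _ ≤ _ := by
      refine mul_le_mul_of_nonneg_left ?_ (abs_nonneg _)
      unfold Lam
      gcongr

/-- a point with zero length -/
private theorem br_fs {δ c : ℝ} (hP : PS X Λ u D p m C) (hc : 0 < c)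
    (hcf : ∀ y ∈ Gd D δ, ∀ x ∈ X, u x - y ∈ Λ → ∀ v, Tan X x v → c * fs x v ^ m ≤ p x v) {x v : EN N} (hx : x ∈ X) (hv : Tan X x v) {y : Vd (k + 1)}
    (hy : y ∈ Gd D δ) (huy : u x - y ∈ Λ) (h0 : p x v ≤ 0) : fs x v = 0 := by
  have h1 := (hcf y hy x hx huy v hv).trans h0
  have h2 := Pool.Agent.H36.BP.fs_nonneg x v
  by_contra hne
  have h3 : 0 < fs x v := lt_of_le_of_ne h2 (Ne.symm hne)
  have h4 : 0 < c * fs x v ^ m := by positivity
  linarith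

theorem brody_cone (hX : IsCone X) (hu : TMap X Λ u) (hΛ : Lat Λ) (hDc : IsClosed D) (hP : PS X Λ u D p m C) (hQ : QD X Λ u D Q d) (hR : RootLog X Λ u Q d p m C₁)
    {F : ℂ → EN N} (hF : Differentiable ℂ F) (hFX : ∀ z, F z ∈ X) (h0 : ∃ z, Q (F z) ≠ 0) (z w : ℂ) : ∃ c : ℂ, F z = c • F w := by
  have hF0 : ∀ z, F z ≠ 0 := fun z e => hX.zero_notMem (e ▸ hFX z)
  obtain ⟨z₁, hz₁⟩ := h0
  -- the length is zero where `Q` is not
  have hzero : ∀ z, Q (F z) ≠ 0 → wd (F z) (deriv F z) = 0 := by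
    intro z hz
    have hyD : u (F z) ∉ D := fun hyD => hz (hQ.zero (F z) (hFX z) _ hyD (by rw [sub_self]; exact Λ.zero_mem))
    obtain ⟨δ, hδ, hG⟩ := br_gd hDc hyD
    have hy : u (F z) ∈ Gd D δ := hG _ (mem_ball_self hδ)
    have huy : u (F z) - u (F z) ∈ Λ := by rw [sub_self]; exact Λ.zero_mem
    obtain ⟨c, hc, hcf⟩ := hP.ge_fs δ hδ
    have htan : Tan X (F z) (deriv F z) := by
      obtain ⟨h, hh⟩ := exists_cv (c := z) (r := 1) hX hu hΛ hF.differentiableOn (fun w _ => hFX w)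
      exact hh.tan isOpen_ball (mem_ball_self one_pos)
    have hp0 : pf p F z ≤ 0 := by
      by_contra hcon
      push Not at hcon
      have hok : Ok Q p F z := ⟨hz, hcon⟩
      have ha : 0 < (pf p F z) ^ (2 / (m : ℝ)) := Real.rpow_pos_of_pos hcon _
      obtain ⟨K, hK⟩ : ∃ K : ℝ, K = |C₁| * (1 + (Lq Q d (F z) + d * max 0 (Real.log (C ^ m / c)))) := ⟨_, rfl⟩
      have hb : ∀ r : ℝ, 0 < r → r ^ 2 * (pf p F z) ^ (2 / (m : ℝ)) ≤ K := by
        intro r hr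
        rw [hK]
        exact br_bd hX hu hΛ hP hQ hR hc hcf hr hF.differentiableOn (fun w _ => hFX w) hy huy hok
      have hK0 : 0 ≤ K := le_trans (by positivity) (hb 1 one_pos)
      have h1 := hb ((K + 1) / (pf p F z) ^ (2 / (m : ℝ)) + 1) (by positivity)
      have h2 : (K + 1) / (pf p F z) ^ (2 / (m : ℝ)) ≤ ((K + 1) / (pf p F z) ^ (2 / (m : ℝ)) + 1) ^ 2 := by
        have h3 : 0 ≤ (K + 1) / (pf p F z) ^ (2 / (m : ℝ)) := by positivity
        nlinarith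
      have h3 := mul_le_mul_of_nonneg_right h2 ha.le
      rw [div_mul_cancel₀ _ ha.ne'] at h3
      linarith
    have hfs := br_fs hP hc hcf (hFX z) htan hy huy hp0
    unfold fs at hfs
    have h2 : ‖F z‖ ^ 2 ≠ 0 := pow_ne_zero 2 (norm_ne_zero_iff.2 (hF0 z))
    exact (div_eq_zero_iff.1 hfs).resolve_right h2
  have hcont : Continuous fun z => Q (F z) := hQ.diff.continuous.comp hF.continuous
  have hev : ∀ᶠ w in 𝓝 z₁, wd (F w) (deriv F w) = 0 := by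
    filter_upwards [hcont.continuousAt.eventually_ne hz₁] with w hw
    exact hzero w hw
  have hc := Pool.Agent.H36.BP.const_of_wedge (hF.analyticAt z₁) (hF0 z₁) hev
  have hall := Pool.Agent.AD.F.Sp.curve_uniq hF (differentiable_const (F z₁)) hF0 (fun _ => hF0 z₁) (z₀ := z₁) (by
    filter_upwards [hc] with w hw
    exact (Pool.Agent.H62.EF.pr_eq_iff (hF0 w) (hF0 z₁)).2 hw)
  have h2 : pr (F z) = pr (F w) := (hall z).trans (hall w).symm
  obtain ⟨c, -, h3⟩ := (Pool.Agent.H62.EF.pr_eq_iff (hF0 z) (hF0 w)).1 h2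
  exact ⟨c, h3⟩

theorem kob_cone (hX : IsCone X) (hu : TMap X Λ u) (hΛ : Lat Λ) (hDc : IsClosed D) (hDi : ∀ y ∈ D, ∀ l ∈ Λ, y + l ∈ D) (hP : PS X Λ u D p m C) (hQ : QD X Λ u D Q d)
    (hR : RootLog X Λ u Q d p m C₁) {x : EN N} (hx : x ∈ X) (hx0 : Q x ≠ 0) :
    ∃ K : ℝ, ∀ᶠ v in 𝓝 x, ∀ F : ℂ → EN N, DifferentiableOn ℂ F (ball 0 1) → (∀ z ∈ ball (0 : ℂ) 1, F z ∈ X) → F 0 = v → fs (F 0) (deriv F 0) ≤ K := by
  have hxne : x ≠ 0 := fun e => hX.zero_notMem (e ▸ hx)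
  have hxn : 0 < ‖x‖ := norm_pos_iff.2 hxne
  obtain ⟨g, hg, hgu⟩ := hu.loc x hx
  have hgx : u x - g x ∈ Λ := hgu.self_of_nhds hx
  have hyD : g x ∉ D := fun hyD => hx0 (hQ.zero x hx _ hyD hgx)
  obtain ⟨δ, hδ, hG⟩ := br_gd hDc hyD
  obtain ⟨c, hc, hcf⟩ := hP.ge_fs δ hδ
  have hm := hP.m_pos
  have hm' : (0 : ℝ) < m := by exact_mod_cast hm
  have hQn : 0 < ‖Q x‖ := norm_pos_iff.2 hx0
  obtain ⟨K₁, hK₁⟩ : ∃ K₁ : ℝ, K₁ = d * Real.log (‖x‖ + 1) - Real.log (‖Q x‖ / 2) := ⟨_, rfl⟩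
  obtain ⟨M, hM⟩ : ∃ M : ℝ, M = |C₁| * (1 + (K₁ + d * max 0 (Real.log (C ^ m / c)))) := ⟨_, rfl⟩
  refine ⟨Real.sqrt (M / c ^ (2 / (m : ℝ))), ?_⟩
  have e1 : ∀ᶠ v in 𝓝 x, g v ∈ ball (g x) δ := hg.continuousAt.eventually_mem (isOpen_ball.mem_nhds (mem_ball_self hδ))
  have e2 : ∀ᶠ v in 𝓝 x, ‖Q x‖ / 2 < ‖Q v‖ :=
    hQ.diff.continuous.norm.continuousAt.eventually_const_lt (by linarith)
  have e3 : ∀ᶠ v in 𝓝 x, ‖v‖ < ‖x‖ + 1 := continuous_norm.continuousAt.eventually_lt_const (by linarith)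
  filter_upwards [hgu, e1, e2, e3] with v f1 f2 f3 f4 F hF hFX hFv
  have h0 : (0 : ℂ) ∈ ball (0 : ℂ) 1 := mem_ball_self one_pos
  have hvX : v ∈ X := hFv ▸ hFX 0 h0
  have hvn : 0 < ‖v‖ := norm_pos_iff.2 fun e => hX.zero_notMem (e ▸ hvX)
  have hy : g v ∈ Gd D δ := hG _ f2
  have huy : u (F 0) - g v ∈ Λ := by rw [hFv]; exact f1 hvX
  have htan : Tan X (F 0) (deriv F 0) := by
    obtain ⟨h, hh⟩ := exists_cv (c := 0) (r := 1) hX hu hΛ hF hFX
    exact hh.tan isOpen_ball h0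
  have hQv : Q (F 0) ≠ 0 := by
    rw [hFv]
    intro e
    rw [e, norm_zero] at f3
    linarith
  have hfs := Pool.Agent.H36.BP.fs_nonneg (F 0) (deriv F 0)
  rcases le_or_gt (pf p F 0) 0 with hp0 | hp0
  · rw [br_fs hP hc hcf (hFX 0 h0) htan hy huy hp0]
    exact Real.sqrt_nonneg _
  · have h1 := br_bd hX hu hΛ hP hQ hR hc hcf one_pos hF hFX hy huy ⟨hQv, hp0⟩
    rw [one_pow, one_mul] at h1
    have h2 : Lq Q d (F 0) ≤ K₁ := by
      rw [hFv, hK₁]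
      unfold Lq
      have h3 : Real.log ‖v‖ ≤ Real.log (‖x‖ + 1) := Real.log_le_log hvn f4.le
      have h4 : Real.log (‖Q x‖ / 2) ≤ Real.log ‖Q v‖ := Real.log_le_log (half_pos hQn) f3.le
      have h5 : (d : ℝ) * Real.log ‖v‖ ≤ d * Real.log (‖x‖ + 1) := mul_le_mul_of_nonneg_left h3 (Nat.cast_nonneg d)
      linarith
    have h3 : (pf p F 0) ^ (2 / (m : ℝ)) ≤ M := by
      refine h1.trans ?_
      rw [hM]
      refine mul_le_mul_of_nonneg_left ?_ (abs_nonneg _)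
      linarith
    have h4 : c * fs (F 0) (deriv F 0) ^ m ≤ pf p F 0 := hcf _ hy _ (hFX 0 h0) huy _ htan
    have h5 : (c * fs (F 0) (deriv F 0) ^ m) ^ (2 / (m : ℝ)) ≤ (pf p F 0) ^ (2 / (m : ℝ)) :=
      Real.rpow_le_rpow (by positivity) h4 (by positivity)
    have h6 : (c * fs (F 0) (deriv F 0) ^ m) ^ (2 / (m : ℝ)) = c ^ (2 / (m : ℝ)) * fs (F 0) (deriv F 0) ^ 2 := by
      rw [Real.mul_rpow hc.le (by positivity), ← Real.rpow_natCast (fs (F 0) (deriv F 0)) m, ← Real.rpow_mul hfs,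
        mul_div_cancel₀ _ hm'.ne']
      norm_num
    have hcp : 0 < c ^ (2 / (m : ℝ)) := Real.rpow_pos_of_pos hc _
    refine Real.le_sqrt_of_sq_le ?_
    rw [le_div_iff₀ hcp]
    calc fs (F 0) (deriv F 0) ^ 2 * c ^ (2 / (m : ℝ)) = (c * fs (F 0) (deriv F 0) ^ m) ^ (2 / (m : ℝ)) := by rw [h6]; ring
      _ ≤ M := h5.trans h3

end Pool.Agent.G3
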