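import Pool.Agent.G3.F.ConP
import Pool.Agent.G3.PS.Main
import Pool.Agent.G3.P.Ahl
import Pool.Agent.TG.FMain

/-!
# G3 F ConD: the geometry of the cone

`isDiscriminant_of`: `small`: `B` is countable (finite modulo the countable group `Λ`), so its Hausdorff dimension is `0` (`Set.Countable.dimH_zero`), and `4 ≤ 2 * 2`.
`hyperbolic`: a curve `f ∈ brodyCurves`, over a point `y ∉ D`, has an entire lift `F` to the cone, `Cv X Λ u univ F (fun _ => y)`; `ps_of_pdata` (`PS/Main`, with `pdata_of`), `ahl` with `H = 0` and `r → ∞` gives `pf p F = 0`,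
`PS.ge_fs` gives `fs (F z) (F' z) = 0`, so `f` is constant.
`geo_of_sing`: `TGF.geo_of`.
-/

set_option autoImplicit false

open Topology Filter Metric MvPolynomial

namespace Pool.Agent.G3

open Pool.Agent.H17 (PN VanishesAt HolomorphicInto puncturedDisc)
open Pool.Agent.H62.FC (Homog)
open Pool.Agent.H17LG.Variety (FunField IsLogGeneralType)
open Pool.Agent.H17EF (projVar coneE LE mem_coneE mk_mem_projVar)
open Pool.Agent.H36.BP (EN fs wd Sub Curve)
open Pool.Agent.H14.PP (IsCone CurveAt Tan)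
open Pool.Agent.H62.EF (MN pr)
open Pool.Agent.AD (Vd Chart Charts uV IsHolomorphicTorusMap)
open Pool.Agent.TG (TMap Lat Geo Gd VForm Fb)
open Pool.Agent.TGF (Cn Over IsDiscriminant)
open Pool.Agent.G3F

private theorem ConD_small {n : ℕ} {Λ : AddSubgroup (Cn n)} [DiscreteTopology Λ] {B : Set (Cn n)}
    (h : ∃ S : Set (Cn n), S.Finite ∧ ∀ b ∈ B, ∃ s ∈ S, b - s ∈ Λ) : dimH B = 0 := by
  obtain ⟨S, hS, hB⟩ := h
  have hΛ : Countable Λ := TopologicalSpace.separableSpace_iff_countable.1 inferInstance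
  have hc : (⋃ s ∈ S, Set.range fun l : Λ => (s + (l : Cn n))).Countable :=
    hS.countable.biUnion fun s _ => Set.countable_range _
  refine Set.Countable.dimH_zero (hc.mono fun b hb => ?_)
  obtain ⟨s, hs, hl⟩ := hB b hb
  refine Set.mem_biUnion hs ⟨⟨b - s, hl⟩, ?_⟩
  show s + (b - s) = b
  abel

private theorem ConD_gd {k : ℕ} {D : Set (Cn (k + 1))} (hD : IsClosed D) {y : Cn (k + 1)} (hy : y ∉ D) : ∃ δ : ℝ, 0 < δ ∧ y ∈ Gd D δ := by
  obtain ⟨δ, hδ, hball⟩ := Metric.isOpen_iff.1 hD.isOpen_compl y hy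
  refine ⟨δ, hδ, fun b hb => ?_⟩
  by_contra hlt
  push Not at hlt
  have h1 : b ∈ ball y δ := by
    rw [mem_ball, dist_comm, dist_eq_norm]
    exact hlt
  exact hball h1 hb

private theorem ConD_zero {a C : ℝ} {m : ℕ} (hm : 1 ≤ m) (hC : 0 < C) (h : ∀ r : ℝ, 0 < r → a ≤ (C * (1 / r + 0)) ^ m) : a ≤ 0 := by
  have h1 : Tendsto (fun r : ℝ => (C * (1 / r + 0)) ^ m) atTop (𝓝 ((C * (0 + 0)) ^ m)) := by
    have h0 : Tendsto (fun r : ℝ => 1 / r) atTop (𝓝 0) := by
      simpa only [one_div] using (tendsto_inv_atTop_zero (𝕜 := ℝ))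
    exact ((h0.add tendsto_const_nhds).const_mul C).pow m
  have h2 : ((C * (0 + 0) : ℝ)) ^ m = 0 := by
    rw [add_zero, mul_zero]
    exact zero_pow (by omega)
  rw [h2] at h1
  refine ge_of_tendsto h1 ?_
  filter_upwards [eventually_gt_atTop 0] with r hr
  exact h r hr

private theorem ConD_const {N : ℕ} {F : ℂ → EN N} {f : ℂ → PN N} (hF : Pool.Agent.H14.V.IsLift F f) (h0 : ∀ z, fs (F z) (deriv F z) = 0) (z w : ℂ) : f z = f w := by
  have hne : ∀ z, F z ≠ 0 := fun z => hF.ne_zero z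
  have hwd : ∀ z, wd (F z) (deriv F z) = 0 := by
    intro z
    have h1 := h0 z
    unfold fs at h1
    rcases div_eq_zero_iff.1 h1 with h2 | h2
    · exact h2
    · exact absurd (pow_eq_zero_iff (by norm_num)|>.1 h2) (norm_ne_zero_iff.2 (hne z))
  have hloc : IsLocallyConstant f := by
    refine (IsLocallyConstant.iff_eventually_eq f).2 fun x => ?_
    have h1 := Pool.Agent.H36.BP.const_of_wedge (hF.1.analyticAt x) (hne x) (Eventually.of_forall hwd)
    filter_upwards [h1] with y hy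
    obtain ⟨c, hc, hy⟩ := hy
    obtain ⟨a1, a2⟩ := hF.2 y
    obtain ⟨b1, b2⟩ := hF.2 x
    rw [a2, b2, Projectivization.mk_eq_mk_iff']
    refine ⟨c, ?_⟩
    rw [hy]
    rfl
  exact hloc.apply_eq_of_preconnectedSpace z w

theorem isDiscriminant_of {N : ℕ} (P : Ideal (MvPolynomial (Fin (N + 1)) ℂ)) [P.IsPrime] (hP : Homog P) (hdim : ∃ z : Fin 3 → FunField P, IsTranscendenceBasis ℂ z)
    (hsmooth : Pool.Agent.AD.NC.IsSmooth P 3) (Λ : AddSubgroup (Cn (1 + 1))) [DiscreteTopology Λ] (hspan : Submodule.span ℝ (Λ : Set (Cn (1 + 1))) = ⊤)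
    (u : PN N → Cn (1 + 1) ⧸ Λ) (hu : IsHolomorphicTorusMap (projVar P) Λ u) (D B : Set (Cn (1 + 1))) (hD : IsSingularLocus (projVar P) Λ u D B)
    (hS : HasSymmetricForms (projVar P) Λ u D) : IsDiscriminant (projVar P) Λ u D B where
  analytic := hD.analytic
  proper := hD.proper
  invariant := hD.invariant
  small := by
    right
    rw [ConD_small hD.small, zero_add]
    norm_num
  submersion := hD.submersion
  hyperbolic := by
    intro y hy f hf hfy
    obtain ⟨hfX, F, hF, hFb⟩ := hf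
    have hFX : ∀ z, F z ∈ coneE P := fun z => (hF.mem_iff hP z).1 (hfX z)
    have hFy : ∀ z, uV Λ u (F z) - y ∈ Λ := by
      intro z
      rw [Pool.Agent.AD.sub_mem_iff, Pool.Agent.AD.uV_eq Λ u (hFX z).1]
      obtain ⟨h1, h2⟩ := hF.2 z
      have h3 := hfy z
      rw [h2] at h3
      exact h3
    have hcv : Cv (coneE P) Λ (uV Λ u) Set.univ F fun _ => y :=
      ⟨hF.1.differentiableOn, differentiableOn_const _, fun z _ => hFX z, fun z _ => hFy z⟩
    obtain ⟨m, J, r, S, W, hPD⟩ := pdata_of hP hS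
    have hDc : IsClosed D := hD.analytic.isClosed
    obtain ⟨C, hps⟩ := ps_of_pdata (Pool.Agent.AD.isCone_coneE hP) (Pool.Agent.TGF.gu_charts hP hdim hsmooth) (Pool.Agent.TGF.gu_tor hP hu)
      (Pool.Agent.TGF.gu_lat Λ hspan) hDc hPD
    obtain ⟨C₁, hC₁, hahl⟩ := ahl hps
    obtain ⟨δ, hδ, hyδ⟩ := ConD_gd hDc hy
    obtain ⟨c, hc, hge⟩ := hps.ge_fs δ hδ
    refine ConD_const hF fun z => ?_
    have h1 : pf (pP S W) F z ≤ 0 := by
      refine ConD_zero hps.m_pos hC₁ fun r hr => ?_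
      refine hahl F (fun _ => y) z r 0 hr le_rfl (hcv.mono (Set.subset_univ _)) fun w _ => ?_
      rw [deriv_const, norm_zero]
    have h2 := hge y hyδ (F z) (hFX z) (hFy z) (deriv F z) (hcv.tan isOpen_univ (Set.mem_univ z))
    have h3 : c * fs (F z) (deriv F z) ^ m ≤ 0 := h2.trans h1
    have h4 : fs (F z) (deriv F z) ^ m ≤ 0 := by
      by_contra h5
      push Not at h5
      have := mul_pos hc h5
      linarith
    have h5 : 0 ≤ fs (F z) (deriv F z) := Pool.Agent.H36.BP.fs_nonneg _ _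
    have h6 : fs (F z) (deriv F z) ^ m = 0 := le_antisymm h4 (pow_nonneg h5 m)
    have hm := hps.m_pos
    exact (pow_eq_zero_iff (by omega)).1 h6
  crossing := hD.crossing

theorem geo_of_sing {N : ℕ} (P : Ideal (MvPolynomial (Fin (N + 1)) ℂ)) [P.IsPrime] (hP : Homog P) (hdim : ∃ z : Fin 3 → FunField P, IsTranscendenceBasis ℂ z)
    (hsmooth : Pool.Agent.AD.NC.IsSmooth P 3) (Λ : AddSubgroup (Cn (1 + 1))) [DiscreteTopology Λ] (hspan : Submodule.span ℝ (Λ : Set (Cn (1 + 1))) = ⊤)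
    (u : PN N → Cn (1 + 1) ⧸ Λ) (hu : IsHolomorphicTorusMap (projVar P) Λ u) (D B : Set (Cn (1 + 1))) (hD : IsSingularLocus (projVar P) Λ u D B)
    (hS : HasSymmetricForms (projVar P) Λ u D) : Geo (coneE P) Λ (uV Λ u) D B :=
  Pool.Agent.TGF.geo_of P hP hdim hsmooth Λ hspan u hu D B (isDiscriminant_of P hP hdim hsmooth Λ hspan u hu D B hD hS)

end Pool.Agent.G3
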