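import Pool.Agent.G3.F.FDefs
import Pool.Agent.G3.A.Defs
import Pool.Agent.TG.GuF
import Pool.Agent.TG.GuL

/-!
# G3 F ConE: the forms on the cone

As `TGF.vform` (`TG/GuF`; only the periodicity is different); `over_iff`, `isTangent_iff`, `gu_lat_sub`.
-/

set_option autoImplicit false

open Topology Filter Metric MvPolynomial

namespace Pool.Agent.G3

open Pool.Agent.H17 (PN VanishesAt HolomorphicInto puncturedDisc)
open Pool.Agent.H62.FC (Homog)
open Pool.Agent.H17LG.Variety (FunField IsLogGeneralType)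
open Pool.Agent.H17EF (projVar coneE LE mem_coneE mk_mem_projVar)
open Pool.Agent.H36.BP (EN fs wd Sub Curve)
open Pool.Agent.H14.PP (IsCone CurveAt Tan)
open Pool.Agent.H62.EF (MN pr)
open Pool.Agent.AD (Vd Chart Charts uV IsHolomorphicTorusMap)
open Pool.Agent.TG (TMap Lat Geo Gd VForm Fb)
open Pool.Agent.TGF (Cn Over IsDiscriminant)
open Pool.Agent.G3F

variable {N k : ℕ} {P : Ideal (MvPolynomial (Fin (N + 1)) ℂ)} {Λ : AddSubgroup (Cn (k + 1))} {u : PN N → Cn (k + 1) ⧸ Λ} {D B : Set (Cn (k + 1))}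

/-- the form on the covering of the cone -/
private noncomputable def tform (hP : Homog P) {Γ : AddSubgroup (Cn (k + 1))} {r : ℕ} {W : Fin r → Cn (k + 1) →L[ℂ] ℂ}
    {Ω : Cn (k + 1) → Cn (N + 1) → (Fin (k + 2) → Cn (N + 1)) → ℂ} (hΩ : IsTwistedTopForm (projVar P) Λ Γ u W Ω) :
    VForm (coneE P) Λ (uV Λ u) where
  toFun y x v := Ω y ((LE N).symm x) fun i => (LE N).symm (v i)
  add_smul := by
    intro y x hx hy v hv a
    have h1 := hΩ.horizontal y _ ((Pool.Agent.TGF.over_iff hP).2 ⟨hx, hy⟩) (fun i => (LE N).symm (v i))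
      (fun i => (Pool.Agent.H17G.isTangent_iff hP hx).2 (hv i)) a
    rw [← h1]
    congr 1
  det := by
    intro y x hx hy v hv A
    have h1 := hΩ.alternating y _ ((Pool.Agent.TGF.over_iff hP).2 ⟨hx, hy⟩) (fun i => (LE N).symm (v i))
      (fun i => (Pool.Agent.H17G.isTangent_iff hP hx).2 (hv i)) A
    rw [← h1]
    congr 1
    funext i
    rw [map_sum]
    exact Finset.sum_congr rfl fun j _ => map_smul _ _ _
  scale := by
    intro y x hx hy v hv c hc
    have h1 := hΩ.homogeneous y _ ((Pool.Agent.TGF.over_iff hP).2 ⟨hx, hy⟩) (fun i => (LE N).symm (v i))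
      (fun i => (Pool.Agent.H17G.isTangent_iff hP hx).2 (hv i)) c hc
    rw [← h1, map_smul]
    congr 1
  analytic := by
    intro φ υ p hφ hυ hφX
    have h1 : AnalyticAt ℂ (fun y => (LE N).symm (φ y)) p := (((LE N).symm : EN N →L[ℂ] (Fin (N + 1) → ℂ)).analyticAt _).comp hφ
    have h2 := hΩ.holomorphic _ υ p h1 hυ (by
      filter_upwards [hφX] with y hy
      exact (Pool.Agent.TGF.over_iff hP).2 hy)
    refine h2.congr ?_
    filter_upwards [hφ.eventually_analyticAt] with y hy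
    have h3 : HasFDerivAt (fun y => (LE N).symm (φ y)) (((LE N).symm : EN N →L[ℂ] (Fin (N + 1) → ℂ)).comp (fderiv ℂ φ y)) y :=
      ((LE N).symm : EN N →L[ℂ] (Fin (N + 1) → ℂ)).hasFDerivAt.comp y hy.differentiableAt.hasFDerivAt
    rw [h3.fderiv]
    rfl

theorem frm_of (hP : Homog P) (hΛ : Lat Λ) (h : HasTopForms (projVar P) Λ u D) :
    ∃ (Γ : AddSubgroup (Vd (k + 1))) (r J : ℕ) (W : Fin r → Vd (k + 1) →L[ℂ] ℂ) (α : Fin J → VForm (coneE P) Λ (uV Λ u)), A.Frm (coneE P) Λ (uV Λ u) D Γ W α := by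
  obtain ⟨Γ, r, J, W, Ω, hle, hspan, hpos, hΩ, hsep⟩ := h
  refine ⟨Γ, r, J, W, fun j => tform hP (hΩ j), ⟨Pool.Agent.TGF.gu_lat_sub hΛ hle hspan, hle, hpos, ?_, ?_⟩⟩
  · intro j l hl
    obtain ⟨L, c, h1, h2⟩ := (hΩ j).quasiPeriodic l hl
    refine ⟨L, c, h1, fun y x hx hy v hv => ?_⟩
    exact h2 y _ ((Pool.Agent.TGF.over_iff hP).2 ⟨hx, hy⟩) _ (fun i => (Pool.Agent.H17G.isTangent_iff hP hx).2 (hv i))
  · intro y hy x hx hxy
    obtain ⟨j, v, hv, hne⟩ := hsep y hy _ ((Pool.Agent.TGF.over_iff hP).2 ⟨hx, hxy⟩)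
    refine ⟨j, fun i => (LE N) (v i), fun i => (Pool.Agent.H17G.isTangent_iff hP hx).1 ?_, ?_⟩
    · rw [ContinuousLinearEquiv.symm_apply_apply]
      exact hv i
    · have h1 : (fun i => (LE N).symm ((LE N) (v i))) = v := funext fun i => ContinuousLinearEquiv.symm_apply_apply _ _
      change Ω j y ((LE N).symm x) (fun i => (LE N).symm ((LE N) (v i))) ≠ 0
      rw [h1]
      exact hne

end Pool.Agent.G3
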