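import Pool.Agent.G3.F.FDefs
import Pool.Agent.G3.C.TDefs
import Pool.Agent.TG.GuF

/-!
# G3 F ConJ: the jet forms on the cone

As `TGF.vform` (`TG/GuF`): `toFun j = Ψ (fun i => (LE N).symm (j i))`; `over_iff`.  For `analytic`: `E` is isomorphic to some `Cn r`.  In `JForm.analytic` the hypothesis says that near `(p, 0)` the point `φ q` is over
`u (φ (q.1, 0)) + q.2 • ν`.
-/

set_option autoImplicit false

open Topology Filter Metric MvPolynomial

namespace Pool.Agent.G3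

open Pool.Agent.H17 (PN VanishesAt HolomorphicInto puncturedDisc)
open Pool.Agent.H62.FC (Homog)
open Pool.Agent.H17LG.Variety (FunField IsLogGeneralType)
open Pool.Agent.H17EF (projVar coneE LE mem_coneE mk_mem_projVar)
open Pool.Agent.H36.BP (EN fs wd Sub Curve)
open Pool.Agent.H14.PP (IsCone CurveAt Tan)
open Pool.Agent.H62.EF (MN pr)
open Pool.Agent.AD (Vd Chart Charts uV IsHolomorphicTorusMap)
open Pool.Agent.TG (TMap Lat Geo Gd VForm Fb)
open Pool.Agent.TGF (Cn Over IsDiscriminant)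
open Pool.Agent.G3F

variable {N k : ℕ} {P : Ideal (MvPolynomial (Fin (N + 1)) ℂ)} {Λ : AddSubgroup (Cn (k + 1))} {u : PN N → Cn (k + 1) ⧸ Λ} {D B : Set (Cn (k + 1))}

private lemma jet_symm {m : ℕ} (φ : ℂ → EN N) : jet m (fun t => (LE N).symm (φ t)) = fun i => (LE N).symm (C.jt m φ i) := by
  funext j
  show iteratedDeriv (j : ℕ) (fun t => (LE N).symm (φ t)) 0 = (LE N).symm (iteratedDeriv (j : ℕ) φ 0)
  rw [iteratedDeriv_eq_iteratedFDeriv, iteratedDeriv_eq_iteratedFDeriv]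
  have h1 := (LE N).symm.iteratedFDeriv_comp_left (f := φ) (x := (0 : ℂ)) (i := (j : ℕ))
  have h2 : (fun t => (LE N).symm (φ t)) = (LE N).symm ∘ φ := rfl
  rw [h2, h1]
  rfl

private lemma curve_symm (hP : Homog P) {ν : Vd (k + 1)} {φ : ℂ → EN N} (h : C.DirC (coneE P) Λ (uV Λ u) ν φ) :
    IsCurveOver (projVar P) Λ u ν (fun t => (LE N).symm (φ t)) := by
  refine ⟨(((LE N).symm : EN N →L[ℂ] (Fin (N + 1) → ℂ)).analyticAt _).comp h.1, uV Λ u (φ 0), ?_⟩
  filter_upwards [h.2] with t ht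
  exact (Pool.Agent.TGF.over_iff hP).2 ht

private lemma submersion_of_str (hP : Homog P) {χ : Chart (k + 2) (coneE P)} {c : Vd (k + 1)} {ρ : ℝ} (hs : Pool.Agent.TG.Str Λ (uV Λ u) χ c ρ) {q₀ : Vd (k + 2)}
    (hq₀ : q₀ ∈ ball (0 : Vd (k + 2)) 2) (h : (LE N).symm (χ.σ q₀) ≠ 0) :
    Pool.Agent.TGF.Submersion (projVar P) Λ u (Pool.Agent.TG.ms c ρ q₀) (Projectivization.mk ℂ ((LE N).symm (χ.σ q₀)) h) := by
  have hρ : (ρ : ℂ) ≠ 0 := by exact_mod_cast hs.pos.ne'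
  obtain ⟨w, hw⟩ : ∃ w : Fin (k + 2) → ℂ, w = Fin.cons 1 fun _ => (ρ : ℂ)⁻¹ := ⟨_, rfl⟩
  have hw0 : ∀ i, w i ≠ 0 := by
    intro i
    rw [hw]
    refine Fin.cases ?_ (fun j => ?_) i
    · simp
    · simpa using hρ
  obtain ⟨T, hT⟩ : ∃ T : Cn (k + 2) → Vd (k + 2), T = fun p => q₀ + fun i => w i * p i := ⟨_, rfl⟩
  have hTan : ∀ p, AnalyticAt ℂ T p := by
    intro p
    rw [hT]
    refine analyticAt_const.add (analyticAt_pi_iff.2 fun i => ?_)
    exact analyticAt_const.mul ((ContinuousLinearMap.proj (R := ℂ) (φ := fun _ : Fin (k + 2) => ℂ) i).analyticAt p)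
  have hT0 : T 0 = q₀ := by
    rw [hT]
    funext i
    simp
  have hTev : ∀ᶠ p in 𝓝 (0 : Cn (k + 2)), T p ∈ ball (0 : Vd (k + 2)) 2 := by
    refine (hTan 0).continuousAt.eventually (isOpen_ball.mem_nhds ?_)
    rw [hT0]
    exact hq₀
  have hov : ∀ᶠ p in 𝓝 (0 : Cn (k + 2)), Over (projVar P) Λ u (Pool.Agent.TG.ms c ρ q₀ + fun i => p i.succ) ((LE N).symm (χ.σ (T p))) := by
    filter_upwards [hTev] with p hp
    refine (Pool.Agent.TGF.over_iff hP).2 ⟨(χ.σ_mem _ hp).1, ?_⟩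
    have h1 := hs.lift _ hp
    have h2 : Pool.Agent.TG.ms c ρ (T p) = Pool.Agent.TG.ms c ρ q₀ + fun i => p i.succ := by
      rw [hT]
      funext i
      simp only [Pool.Agent.TG.ms, Pool.Agent.TG.tl, Pi.add_apply, Pi.smul_apply, smul_eq_mul, hw, Fin.cons_succ]
      field_simp
      ring
    rwa [h2] at h1
  refine ⟨fun p => (LE N).symm (χ.σ (T p)), ⟨?_, ?_, ?_, ?_⟩, hov⟩
  · refine (((LE N).symm : EN N →L[ℂ] (Fin (N + 1) → ℂ)).analyticAt _).comp ?_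
    refine AnalyticAt.comp (g := χ.σ) ?_ (hTan 0)
    rw [hT0]
    exact χ.σ_an _ hq₀
  · refine ⟨by rw [hT0]; exact h, ?_⟩
    simp only [hT0]
  · filter_upwards [hov] with p hp
    exact ⟨hp.choose, hp.choose_spec.1⟩
  · intro v a hva
    have hσd : HasFDerivAt χ.σ (fderiv ℂ χ.σ q₀) (T 0) := by
      rw [hT0]
      exact (χ.σ_an _ hq₀).differentiableAt.hasFDerivAt
    obtain ⟨L, hL⟩ : ∃ L : Cn (k + 2) →L[ℂ] Vd (k + 2), ∀ p i, L p i = w i * p i :=
      ⟨ContinuousLinearMap.pi fun i => w i • ContinuousLinearMap.proj (R := ℂ) (φ := fun _ : Fin (k + 2) => ℂ) i, fun p i => by simp⟩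
    have hTd : HasFDerivAt T L 0 := by
      have h1 : T = fun p => q₀ + L p := by
        rw [hT]
        funext p i
        rw [Pi.add_apply, Pi.add_apply, hL]
      rw [h1]
      exact L.hasFDerivAt.const_add q₀
    have h2 : HasFDerivAt (fun p => (LE N).symm (χ.σ (T p))) (((LE N).symm : EN N →L[ℂ] (Fin (N + 1) → ℂ)).comp ((fderiv ℂ χ.σ q₀).comp L)) 0 :=
      ((LE N).symm : EN N →L[ℂ] (Fin (N + 1) → ℂ)).hasFDerivAt.comp 0 (hσd.comp 0 hTd)
    rw [h2.fderiv] at hva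
    have h3 : fderiv ℂ χ.σ q₀ (L v) = a • χ.σ q₀ := by
      have h4 : (LE N).symm (fderiv ℂ χ.σ q₀ (L v)) = a • (LE N).symm (χ.σ q₀) := by
        rw [← hT0]
        rw [← hT0] at hva
        exact hva
      rw [← map_smul] at h4
      exact (LE N).symm.injective h4
    have hU := (χ.σ_mem _ hq₀).2.1
    have hq : HasFDerivAt χ.q (fderiv ℂ χ.q (χ.σ q₀)) (χ.σ q₀) := (χ.q_an _ hU).differentiableAt.hasFDerivAt
    have h5 : fderiv ℂ χ.q (χ.σ q₀) (fderiv ℂ χ.σ q₀ (L v)) = L v := by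
      have h6 : HasFDerivAt (fun p => χ.q (χ.σ p)) ((fderiv ℂ χ.q (χ.σ q₀)).comp (fderiv ℂ χ.σ q₀)) q₀ :=
        hq.comp q₀ (χ.σ_an _ hq₀).differentiableAt.hasFDerivAt
      have h7 : HasFDerivAt (fun p => χ.q (χ.σ p)) (ContinuousLinearMap.id ℂ (Vd (k + 2))) q₀ := by
        refine (hasFDerivAt_id q₀).congr_of_eventuallyEq ?_
        filter_upwards [isOpen_ball.mem_nhds hq₀] with p hp
        exact (χ.σ_mem _ hp).2.2
      have h8 := h6.unique h7
      exact congrArg (fun M : Vd (k + 2) →L[ℂ] Vd (k + 2) => M (L v)) h8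
    have h6 : fderiv ℂ χ.q (χ.σ q₀) (χ.σ q₀) = 0 := by
      have h7 : HasDerivAt (fun t : ℂ => χ.q ((1 + t) • χ.σ q₀)) (fderiv ℂ χ.q (χ.σ q₀) (χ.σ q₀)) 0 := by
        have h8 : HasDerivAt (fun t : ℂ => (1 + t) • χ.σ q₀) (χ.σ q₀) 0 := by
          have h9 : HasDerivAt (fun t : ℂ => 1 + t) 1 0 := (hasDerivAt_id (0 : ℂ)).const_add 1
          simpa using h9.smul_const (χ.σ q₀)
        have h10 : HasFDerivAt χ.q (fderiv ℂ χ.q (χ.σ q₀)) ((1 + (0 : ℂ)) • χ.σ q₀) := by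
          rw [add_zero, one_smul]
          exact hq
        exact h10.comp_hasDerivAt (0 : ℂ) h8
      have h8 : HasDerivAt (fun t : ℂ => χ.q ((1 + t) • χ.σ q₀)) 0 0 := by
        refine (hasDerivAt_const (0 : ℂ) (χ.q (χ.σ q₀))).congr_of_eventuallyEq ?_
        have h9 : ∀ᶠ t : ℂ in 𝓝 0, 1 + t ≠ 0 := by
          have h10 : Tendsto (fun t : ℂ => 1 + t) (𝓝 0) (𝓝 (1 + 0)) := (continuous_const.add continuous_id).tendsto 0
          rw [add_zero] at h10
          exact h10.eventually (isOpen_ne.mem_nhds one_ne_zero)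
        filter_upwards [h9] with t ht
        exact χ.q_smul _ hU _ ht
      exact h7.unique h8
    rw [h3, map_smul, h6, smul_zero] at h5
    funext i
    have h7 := congrFun h5 i
    rw [hL] at h7
    rcases mul_eq_zero.1 h7.symm with h8 | h8
    · exact absurd h8 (hw0 i)
    · exact h8

private noncomputable def jf (hP : Homog P) {ν : Vd (k + 1)} {m : ℕ} {Ψ : (Fin (m + 1) → Cn (N + 1)) → ℂ} (hΨ : IsJetForm (projVar P) Λ u ν m Ψ) :
    C.JForm (coneE P) Λ (uV Λ u) ν m where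
  toFun j := Ψ (fun i => (LE N).symm (j i))
  scale := by
    intro φ hφ c hc hc0
    have h1 := hΨ.homogeneous _ (curve_symm hP hφ) c hc hc0
    have h2 : (fun t => c t • (LE N).symm (φ t)) = fun t => (LE N).symm (c t • φ t) := by
      funext t; rw [map_smul]
    rw [h2, jet_symm (fun t => c t • φ t), jet_symm φ] at h1
    exact h1
  analytic := by
    intro E _ _ _ φ p hφ hφX hstr
    let e : E ≃L[ℂ] (Fin (Module.finrank ℂ E) → ℂ) := ContinuousLinearEquiv.ofFinrankEq (by simp)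
    have hpe : e.symm (e p) = p := e.symm_apply_apply p
    have hmap : AnalyticAt ℂ (fun q : (Fin (Module.finrank ℂ E) → ℂ) × ℂ => ((e.symm q.1, q.2) : E × ℂ)) (e p, 0) := by
      have h1 : AnalyticAt ℂ (fun q : (Fin (Module.finrank ℂ E) → ℂ) × ℂ => e.symm q.1) (e p, 0) :=
        ((e.symm : (Fin (Module.finrank ℂ E) → ℂ) →L[ℂ] E).analyticAt _).comp analyticAt_fst
      exact h1.prod analyticAt_snd
    have hmt : Tendsto (fun q : (Fin (Module.finrank ℂ E) → ℂ) × ℂ => ((e.symm q.1, q.2) : E × ℂ)) (𝓝 (e p, 0)) (𝓝 (p, 0)) := by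
      have h1 := hmap.continuousAt.tendsto
      simpa only [hpe] using h1
    have hφ' : AnalyticAt ℂ (fun q : (Fin (Module.finrank ℂ E) → ℂ) × ℂ => (LE N).symm (φ (e.symm q.1, q.2))) (e p, 0) := by
      have h1 : AnalyticAt ℂ φ (e.symm (e p), (0 : ℂ)) := by rw [hpe]; exact hφ
      have h2 : AnalyticAt ℂ (fun q : (Fin (Module.finrank ℂ E) → ℂ) × ℂ => φ (e.symm q.1, q.2)) (e p, 0) :=
        AnalyticAt.comp (g := φ) (f := fun q : (Fin (Module.finrank ℂ E) → ℂ) × ℂ => ((e.symm q.1, q.2) : E × ℂ)) h1 hmap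
      exact (((LE N).symm : EN N →L[ℂ] (Fin (N + 1) → ℂ)).analyticAt _).comp h2
    have hev : ∀ᶠ q : (Fin (Module.finrank ℂ E) → ℂ) × ℂ in 𝓝 (e p, 0), ∃ y, Over (projVar P) Λ u y ((fun q : (Fin (Module.finrank ℂ E) → ℂ) × ℂ =>
        (LE N).symm (φ (e.symm q.1, q.2))) (q.1, 0)) ∧ Over (projVar P) Λ u (y + q.2 • ν) ((fun q : (Fin (Module.finrank ℂ E) → ℂ) × ℂ =>
        (LE N).symm (φ (e.symm q.1, q.2))) q) := by
      have h0 : Tendsto (fun q : (Fin (Module.finrank ℂ E) → ℂ) × ℂ => ((e.symm q.1, (0 : ℂ)) : E × ℂ)) (𝓝 (e p, 0)) (𝓝 (p, 0)) := by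
        have h1 : Continuous (fun q : (Fin (Module.finrank ℂ E) → ℂ) × ℂ => ((e.symm q.1, (0 : ℂ)) : E × ℂ)) :=
          (e.symm.continuous.comp continuous_fst).prodMk continuous_const
        have h2 := h1.tendsto (e p, 0)
        simpa only [hpe] using h2
      filter_upwards [hmt.eventually hφX, h0.eventually hφX] with q hq hq0
      refine ⟨uV Λ u (φ (e.symm q.1, 0)), (Pool.Agent.TGF.over_iff hP).2 ⟨hq0.1, ?_⟩, (Pool.Agent.TGF.over_iff hP).2 ⟨hq.1, hq.2⟩⟩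
      rw [sub_self]
      exact Λ.zero_mem
    have hsub : ∃ (y : Cn (k + 1)) (h : (fun q : (Fin (Module.finrank ℂ E) → ℂ) × ℂ => (LE N).symm (φ (e.symm q.1, q.2))) (e p, 0) ≠ 0),
        Pool.Agent.TGF.Submersion (projVar P) Λ u y (Projectivization.mk ℂ ((fun q : (Fin (Module.finrank ℂ E) → ℂ) × ℂ => (LE N).symm (φ (e.symm q.1, q.2))) (e p, 0)) h) := by
      obtain ⟨χ, c, ρ, hs, q₀, hq₀, hσ⟩ := hstr
      have h1 : (fun q : (Fin (Module.finrank ℂ E) → ℂ) × ℂ => (LE N).symm (φ (e.symm q.1, q.2))) (e p, 0) = (LE N).symm (χ.σ q₀) := by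
        show (LE N).symm (φ (e.symm (e p), 0)) = _
        rw [hpe, hσ]
      have h2 : (LE N).symm (χ.σ q₀) ≠ 0 := by
        have h3 := (mem_coneE hP).1 (χ.σ_mem _ hq₀).1
        exact h3.choose
      refine ⟨Pool.Agent.TG.ms c ρ q₀, by rw [h1]; exact h2, ?_⟩
      simp only [h1]
      exact submersion_of_str hP hs hq₀ h2
    have h3 := hΨ.holomorphic _ _ (e p) hφ' hsub hev
    have h4 : AnalyticAt ℂ (fun q : E => Ψ (jet m fun t => (LE N).symm (φ (e.symm (e q), t)))) p :=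
      AnalyticAt.comp (g := fun q : Fin (Module.finrank ℂ E) → ℂ => Ψ (jet m fun t => (LE N).symm (φ (e.symm q, t)))) (f := e) h3
        ((e : E →L[ℂ] (Fin (Module.finrank ℂ E) → ℂ)).analyticAt p)
    refine h4.congr ?_
    refine Eventually.of_forall fun q => ?_
    show Ψ (jet m fun t => (LE N).symm (φ (e.symm (e q), t))) = Ψ (fun i => (LE N).symm (C.jt m (fun t => φ (q, t)) i))
    rw [e.symm_apply_apply, jet_symm (fun t => φ (q, t))]

theorem jform_of (hP : Homog P) (h : HasJetForms (projVar P) Λ u) (ν : Vd (k + 1)) (hν : ν ≠ 0) :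
    ∃ (m : ℕ) (Ψ : C.JForm (coneE P) Λ (uV Λ u) ν m), Ψ.Thin := by
  obtain ⟨m, Ψ, hΨ⟩ := h ν hν
  refine ⟨m, jf hP hΨ, ?_⟩
  intro x hx U hU
  have hov : Over (projVar P) Λ u (uV Λ u x) ((LE N).symm x) :=
    (Pool.Agent.TGF.over_iff hP).2 ⟨hx, by rw [sub_self]; exact Λ.zero_mem⟩
  have hU' : (LE N) ⁻¹' U ∈ 𝓝 ((LE N).symm x) := by
    apply (LE N).continuous.continuousAt.preimage_mem_nhds
    rw [ContinuousLinearEquiv.apply_symm_apply]
    exact hU
  obtain ⟨φ, ⟨hφ, y, hy⟩, hφU, hne⟩ := hΨ.nonzero _ _ hov _ hU'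
  have hsy : ∀ t, (LE N).symm ((LE N) (φ t)) = φ t := fun t => ContinuousLinearEquiv.symm_apply_apply _ _
  have han : AnalyticAt ℂ (fun t => (LE N) (φ t)) 0 := (((LE N) : (Fin (N + 1) → ℂ) →L[ℂ] EN N).analyticAt _).comp hφ
  have hy' : ∀ᶠ t in 𝓝 (0 : ℂ), (LE N) (φ t) ∈ coneE P ∧ uV Λ u ((LE N) (φ t)) - (y + t • ν) ∈ Λ := by
    filter_upwards [hy] with t ht
    rw [← hsy t] at ht
    exact (Pool.Agent.TGF.over_iff hP).1 ht
  refine ⟨fun t => (LE N) (φ t), ⟨han, ?_⟩, hφU, ?_⟩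
  · have h0 := hy'.self_of_nhds.2
    filter_upwards [hy'] with t ht
    refine ⟨ht.1, ?_⟩
    have h1 := Λ.sub_mem ht.2 h0
    have h2 : uV Λ u ((LE N) (φ t)) - (y + t • ν) - (uV Λ u ((LE N) (φ 0)) - (y + (0 : ℂ) • ν)) =
        uV Λ u ((LE N) (φ t)) - (uV Λ u ((LE N) (φ 0)) + t • ν) := by
      rw [zero_smul]; abel
    rwa [h2] at h1
  · show Ψ (fun i => (LE N).symm (C.jt m (fun t => (LE N) (φ t)) i)) ≠ 0
    rw [← jet_symm (fun t => (LE N) (φ t))]
    simpa only [hsy] using hne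

end Pool.Agent.G3
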