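import Pool.Agent.G3.F.FDefs
import Pool.Agent.G3.Defs
import Pool.Agent.TG.GuF

/-!
# G3 F ConP: the symmetric differentials on the cone

As `TGF.vform` (`TG/GuF`); `over_iff`, `isTangent_iff`.
-/

set_option autoImplicit false

open Topology Filter Metric MvPolynomial

namespace Pool.Agent.G3

open Pool.Agent.H17 (PN VanishesAt HolomorphicInto puncturedDisc)
open Pool.Agent.H62.FC (Homog)
open Pool.Agent.H17LG.Variety (FunField IsLogGeneralType)
open Pool.Agent.H17EF (projVar coneE LE mem_coneE mk_mem_projVar)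
open Pool.Agent.H36.BP (EN fs wd Sub Curve)
open Pool.Agent.H14.PP (IsCone CurveAt Tan)
open Pool.Agent.H62.EF (MN pr)
open Pool.Agent.AD (Vd Chart Charts uV IsHolomorphicTorusMap)
open Pool.Agent.TG (TMap Lat Geo Gd VForm Fb)
open Pool.Agent.TGF (Cn Over IsDiscriminant)
open Pool.Agent.G3F

variable {N k : ℕ} {P : Ideal (MvPolynomial (Fin (N + 1)) ℂ)} {Λ : AddSubgroup (Cn (k + 1))} {u : PN N → Cn (k + 1) ⧸ Λ} {D B : Set (Cn (k + 1))}

/-- the symmetric differential on the cone -/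
private noncomputable def ConP_sform (hP : Homog P) {m r : ℕ} {W : Fin r → Cn (k + 1) →L[ℂ] ℂ} {S : Cn (k + 1) → Cn (N + 1) → Cn (N + 1) → ℂ}
    (hS : IsTwistedSymmetricForm (projVar P) Λ u m W S) : SForm (coneE P) Λ (uV Λ u) m where
  toFun y x v := S y ((LE N).symm x) ((LE N).symm v)
  add_smul := by
    intro y x hx hy v hv a
    have h1 := hS.horizontal y _ ((Pool.Agent.TGF.over_iff hP).2 ⟨hx, hy⟩) ((LE N).symm v) ((Pool.Agent.H17G.isTangent_iff hP hx).2 hv) a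
    rw [← h1, map_add, map_smul]
  hom := by
    intro y x hx hy v hv a
    have h1 := hS.degree y _ ((Pool.Agent.TGF.over_iff hP).2 ⟨hx, hy⟩) ((LE N).symm v) ((Pool.Agent.H17G.isTangent_iff hP hx).2 hv) a
    rw [← h1, map_smul]
  scale := by
    intro y x hx hy v hv c hc
    have h1 := hS.homogeneous y _ ((Pool.Agent.TGF.over_iff hP).2 ⟨hx, hy⟩) ((LE N).symm v) ((Pool.Agent.H17G.isTangent_iff hP hx).2 hv) c hc
    rw [← h1, map_smul, map_smul]
  analytic := by
    intro r φ υ p w hφ hυ hφX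
    have h1 : AnalyticAt ℂ (fun y => (LE N).symm (φ y)) p := (((LE N).symm : EN N →L[ℂ] (Fin (N + 1) → ℂ)).analyticAt _).comp hφ
    have h2 := hS.holomorphic r _ υ p w h1 hυ (by
      filter_upwards [hφX] with y hy
      exact (Pool.Agent.TGF.over_iff hP).2 hy)
    refine h2.congr ?_
    have h4 : ∀ᶠ q : Vd r × Vd r in 𝓝 (p, w), AnalyticAt ℂ φ q.1 := continuousAt_fst.eventually hφ.eventually_analyticAt
    filter_upwards [h4] with y hy
    have h3 : HasFDerivAt (fun y => (LE N).symm (φ y)) (((LE N).symm : EN N →L[ℂ] (Fin (N + 1) → ℂ)).comp (fderiv ℂ φ y.1)) y.1 :=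
      ((LE N).symm : EN N →L[ℂ] (Fin (N + 1) → ℂ)).hasFDerivAt.comp y.1 hy.differentiableAt.hasFDerivAt
    rw [h3.fderiv]
    rfl

theorem pdata_of (hP : Homog P) (h : HasSymmetricForms (projVar P) Λ u D) :
    ∃ (m J r : ℕ) (S : Fin J → SForm (coneE P) Λ (uV Λ u) m) (W : Fin r → Vd (k + 1) →L[ℂ] ℂ), PData (coneE P) Λ (uV Λ u) D S W := by
  obtain ⟨m, r, J, W, S, hm, hS, hz⟩ := h
  refine ⟨m, J, r, fun j => ConP_sform hP (hS j), W, hm, ?_, ?_⟩
  · intro j y l hl x hx hy v hv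
    exact (hS j).quasiPeriodic y l hl _ ((Pool.Agent.TGF.over_iff hP).2 ⟨hx, hy⟩) _ ((Pool.Agent.H17G.isTangent_iff hP hx).2 hv)
  · intro y hy x hx hxy v hv h0
    obtain ⟨c, hc⟩ := hz y hy _ ((Pool.Agent.TGF.over_iff hP).2 ⟨hx, hxy⟩) ((LE N).symm v) ((Pool.Agent.H17G.isTangent_iff hP hx).2 hv) h0
    refine ⟨c, ?_⟩
    rw [← map_smul] at hc
    exact (LE N).symm.injective hc

end Pool.Agent.G3
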