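import Pool.Agent.G3.F.FDefs
import Pool.Agent.TG.GuF
import Pool.Agent.G3.A.Defs
import Pool.Agent.G3.C.TDefs
import Pool.Agent.G3.Z.CDefs
import Pool.Agent.G3.E.Main

/-!
# G3 F End: the output of the blocks (A) and (C)

From `E/Main.end_main`.
-/

set_option autoImplicit false

open Topology Filter Metric MvPolynomial

namespace Pool.Agent.G3

open Pool.Agent.H17 (PN VanishesAt HolomorphicInto puncturedDisc)
open Pool.Agent.H62.FC (Homog)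
open Pool.Agent.H17LG.Variety (FunField IsLogGeneralType)
open Pool.Agent.H17EF (projVar coneE LE mem_coneE mk_mem_projVar)
open Pool.Agent.H36.BP (EN fs wd Sub Curve)
open Pool.Agent.H14.PP (IsCone CurveAt Tan)
open Pool.Agent.H62.EF (MN pr)
open Pool.Agent.AD (Vd Chart Charts uV IsHolomorphicTorusMap)
open Pool.Agent.TG (TMap Lat Geo Gd VForm Fb)
open Pool.Agent.TGF (Cn Over IsDiscriminant)
open Pool.Agent.G3F

theorem end_out {N : ℕ} {X : Set (EN N)} {Λ : AddSubgroup (Vd (1 + 1))} {u : EN N → Vd (1 + 1)} {D B : Set (Vd (1 + 1))} {p : EN N → EN N → ℝ} {m : ℕ} {K : ℝ}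
    (G : Geo X Λ u D B) (hD : Pool.Agent.TGF.IsAnalyticSubset D) (hB : ∃ S : Set (Vd (1 + 1)), S.Finite ∧ ∀ b ∈ B, ∃ s ∈ S, b - s ∈ Λ) (hs : Simp Λ)
    {Γ : AddSubgroup (Vd (1 + 1))} {J r : ℕ} {W : Fin r → Vd (1 + 1) →L[ℂ] ℂ} {α : Fin J → VForm X Λ u} (hα : A.Frm X Λ u D Γ W α)
    (hP : PS X Λ u D p m K) (hJ : ∀ ν : Vd (1 + 1), ν ≠ 0 → ∃ (m : ℕ) (Ψ : C.JForm X Λ u ν m), Ψ.Thin) :
    (∃ S, Csf X Λ u D S) ∧ HPl D B ∧ LDi D :=
  E.end_main G hD hB hs hP hα hJ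

end Pool.Agent.G3
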