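import Pool.Agent.G3.Z.CDefs
import Pool.Agent.G3.F.FDefs
import Pool.Agent.TG.HyC
import Pool.Agent.TG.GuF

/-!
# G3 F Hyp: the images of finitely many periodic meromorphic maps lie in a hypersurface

`TG.exists_form_of_entire` (`TG/HyC`) is the same statement for maps with entire lifts `F j`.  Here there are only local lifts.  Plan: same proof with finitely many centres.  Let `R` be the constant of `hΓ`.
For every `j` and `y₀` in the ball of radius `R + 3` choose `r` and a lift `φ`, analytic on `closedBall y₀ (4 r)`; finitely many balls `ball (c i) (r i)` cover, lifts `φ j i`.  `exists_form_of_conditions` gives for large `d` a form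
`Q ∉ P` of degree `d` such that all `Q ∘ φ j i` vanish of order `κ d` at `c i` (the number of conditions is `≤ const κ ^ n d ^ n`).  As in `exists_form_of_entire`: a bound `‖eval v Q‖ ≤ S ‖v‖ ^ d` for all points `v` over
`Φ j y`, `y ∈ Gd D δ` (`δ` from `exists_circle_unif`), gives by the maximum principle on circles in `Gd D δ` a bound `S C₁ ^ d` for `Q ∘ φ j i` on `ball (c i) (2 r i)`, by the Schwarz lemma `S C₁ ^ d 2 ^ (- κ d)` on
`ball (c i) (r i)`, and by comparison (`exists_cmp`: the lifts `φ j i` are multiples of lifts without zeros near the points of `Gd D δ`, on circles around the point the factor is bounded below) the bound with `S / 2` instead of `S`.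
So `S = 0`: `Q = 0` at all points over `Φ j y`, `y ∈ Gd D δ`, and by the identity theorem for all `y ∉ D` (or: the whole argument for all small `δ`).
-/

set_option autoImplicit false

open Topology Filter Metric MvPolynomial

namespace Pool.Agent.G3

open Pool.Agent.H17 (PN VanishesAt HolomorphicInto puncturedDisc)
open Pool.Agent.H62.FC (Homog)
open Pool.Agent.H17LG.Variety (FunField IsLogGeneralType)
open Pool.Agent.H17EF (projVar coneE LE mem_coneE mk_mem_projVar)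
open Pool.Agent.H36.BP (EN fs wd Sub Curve)
open Pool.Agent.H14.PP (IsCone CurveAt Tan)
open Pool.Agent.H62.EF (MN pr)
open Pool.Agent.AD (Vd Chart Charts uV IsHolomorphicTorusMap)
open Pool.Agent.TG (TMap Lat Geo Gd VForm Fb)
open Pool.Agent.TGF (Cn Over IsDiscriminant)
open Pool.Agent.G3F

/-- small circles of size at most `ε` -/
private theorem circle_small {n : ℕ} {D : Set (Vd n)} (hD : IsClosed D)
    (thin : ∀ y₀ : Vd n, ∃ h : Vd n → ℂ, AnalyticAt ℂ h y₀ ∧ (∀ᶠ z in 𝓝 y₀, z ∈ D → h z = 0) ∧ ¬ ∀ᶠ z in 𝓝 y₀, h z = 0)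
    {K : Set (Vd n)} (hK : IsCompact K) {ε : ℝ} (hε : 0 < ε) :
    ∃ δ : ℝ, 0 < δ ∧ ∀ y ∈ K, ∃ (e : Vd n) (r : ℝ), 0 < r ∧ r * ‖e‖ ≤ ε ∧ ∀ t : ℂ, ‖t‖ = r → ∀ b ∈ D, δ ≤ ‖y + t • e - b‖ := by
  have hεC : (ε : ℂ) ≠ 0 := by exact_mod_cast hε.ne'
  have hnε : ‖(ε : ℂ)‖ = ε := by rw [Complex.norm_real, Real.norm_of_nonneg hε.le]
  have hsc : ∀ y : Vd n, AnalyticAt ℂ (fun y : Vd n => (ε : ℂ) • y) y := fun y => by fun_prop
  have hct : ∀ y : Vd n, Tendsto (fun y : Vd n => (ε : ℂ) • y) (𝓝 y) (𝓝 ((ε : ℂ) • y)) := fun y => (hsc y).continuousAt.tendsto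
  obtain ⟨δ, hδ, h⟩ := Pool.Agent.TG.exists_circle_unif (D := (fun y : Vd n => (ε : ℂ) • y) ⁻¹' D) (hD.preimage (by fun_prop)) (fun y₀ => by
    obtain ⟨h, h1, h2, h3⟩ := thin ((ε : ℂ) • y₀)
    refine ⟨fun y => h ((ε : ℂ) • y), AnalyticAt.fun_comp (g := h) (f := fun y : Vd n => (ε : ℂ) • y) h1 (hsc y₀), (hct y₀).eventually h2, fun h4 => h3 ?_⟩
    have ht : Tendsto (fun y : Vd n => (ε : ℂ)⁻¹ • y) (𝓝 ((ε : ℂ) • y₀)) (𝓝 y₀) := by
      have h5 : Continuous fun y : Vd n => (ε : ℂ)⁻¹ • y := by fun_prop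
      have h6 := h5.tendsto ((ε : ℂ) • y₀)
      rwa [smul_smul, inv_mul_cancel₀ hεC, one_smul] at h6
    filter_upwards [ht.eventually h4] with y hy
    rwa [smul_smul, mul_inv_cancel₀ hεC, one_smul] at hy) (hK.image (f := fun y : Vd n => (ε : ℂ)⁻¹ • y) (by fun_prop))
  refine ⟨ε * δ, by positivity, fun y hy => ?_⟩
  obtain ⟨e, r, hr, hre, h1⟩ := h _ ⟨y, hy, rfl⟩
  refine ⟨(ε : ℂ) • e, r, hr, ?_, fun t ht b hb => ?_⟩
  · rw [norm_smul, hnε]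
    nlinarith
  · have h2 := h1 t ht ((ε : ℂ)⁻¹ • b) (by
      show (ε : ℂ) • ((ε : ℂ)⁻¹ • b) ∈ D
      rwa [smul_smul, mul_inv_cancel₀ hεC, one_smul])
    have h3 : y + t • ((ε : ℂ) • e) - b = (ε : ℂ) • ((ε : ℂ)⁻¹ • y + t • e - (ε : ℂ)⁻¹ • b) := by
      have h4 : ∀ w : Vd n, (ε : ℂ) • ((ε : ℂ)⁻¹ • w) = w := fun w => by rw [smul_smul, mul_inv_cancel₀ hεC, one_smul]
      rw [smul_sub, smul_add, h4, h4, smul_comm t]
    rw [h3, norm_smul, hnε]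
    exact mul_le_mul_of_nonneg_left h2 hε.le

/-- the comparison of the value of a form at a point with the values along a lift -/
private theorem cmp {N n : ℕ} {φ ψ : Vd n → EN N} {f : Vd n → MN N} {y₀ : Vd n} (hφ : AnalyticAt ℂ φ y₀) (hne : ¬ ∀ᶠ z in 𝓝 y₀, φ z = 0)
    (hψ : AnalyticAt ℂ ψ y₀) (hψ0 : ψ y₀ ≠ 0) (h1 : ∀ᶠ z in 𝓝 y₀, φ z ≠ 0 → f z = pr (φ z)) (h2 : ∀ᶠ z in 𝓝 y₀, f z = pr (ψ z)) {ε : ℝ} (hε : 0 < ε) :
    ∃ c : ℝ, 0 < c ∧ ∀ᶠ y in 𝓝 y₀, ∀ x : EN N, x ≠ 0 → pr x = f y → ∀ (d : ℕ) (q : EN N → ℂ), (∀ (a : ℂ) (x : EN N), q (a • x) = a ^ d * q x) →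
      Differentiable ℂ q → ∃ y' : Vd n, ‖y' - y‖ ≤ ε ∧ c ^ d * ‖q x‖ ≤ ‖x‖ ^ d * ‖q (φ y')‖ := by
  have hn0 : 0 < ‖ψ y₀‖ := norm_pos_iff.2 hψ0
  have h3 : ∀ᶠ z in 𝓝 y₀, (AnalyticAt ℂ ψ z ∧ AnalyticAt ℂ φ z) ∧ (φ z ≠ 0 → f z = pr (φ z)) ∧ f z = pr (ψ z) ∧ ‖ψ y₀‖ / 2 < ‖ψ z‖ ∧ ‖ψ z‖ < 2 * ‖ψ y₀‖ :=
    (hψ.eventually_analyticAt.and hφ.eventually_analyticAt).and (h1.and (h2.and ((hψ.continuousAt.norm.eventually (lt_mem_nhds (by linarith))).and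
      (hψ.continuousAt.norm.eventually (gt_mem_nhds (by linarith))))))
  obtain ⟨ρ, hρ, h4⟩ := Metric.eventually_nhds_iff_ball.1 h3
  -- a direction
  obtain ⟨e, he⟩ : ∃ e : Vd n, ∀ᶠ t in 𝓝[≠] (0 : ℂ), φ (y₀ + t • e) ≠ 0 := by
    have h5 : ∃ i : Fin (N + 1), ¬ ∀ᶠ z in 𝓝 y₀, φ z i = 0 := by
      by_contra hcon
      push Not at hcon
      apply hne
      filter_upwards [eventually_all.2 hcon] with z hz
      ext i
      exact hz i
    obtain ⟨i, hi⟩ := h5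
    have h6 : AnalyticAt ℂ (fun z => φ z i) y₀ := by
      have h7 := ((EuclideanSpace.proj i : EN N →L[ℂ] ℂ).analyticAt (φ y₀)).comp hφ
      exact h7
    obtain ⟨e, he⟩ := Pool.Agent.TG.exists_dir h6 hi
    refine ⟨e, ?_⟩
    filter_upwards [he] with t ht h0
    apply ht
    rw [h0]
    rfl
  rw [eventually_nhdsWithin_iff, Metric.eventually_nhds_iff] at he
  obtain ⟨η, hη, h5⟩ := he
  obtain ⟨r, hr⟩ : ∃ r : ℝ, r = min (η / 2) (min ε (ρ / 2) / (‖e‖ + 1)) := ⟨_, rfl⟩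
  have he1 : 0 < ‖e‖ + 1 := by positivity
  have hm : 0 < min ε (ρ / 2) := lt_min hε (by linarith)
  have hr0 : 0 < r := by
    rw [hr]
    exact lt_min (by linarith) (div_pos hm he1)
  have hrη : r < η := lt_of_le_of_lt (hr ▸ min_le_left _ _) (by linarith)
  have hre : r * ‖e‖ ≤ min ε (ρ / 2) := by
    have h6 : r ≤ min ε (ρ / 2) / (‖e‖ + 1) := hr ▸ min_le_right _ _
    rw [le_div_iff₀ he1] at h6
    nlinarith [norm_nonneg e]
  have hre1 : r * ‖e‖ ≤ ε := hre.trans (min_le_left _ _)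
  have hreρ : r * ‖e‖ ≤ ρ / 2 := hre.trans (min_le_right _ _)
  have h6 : ∀ t ∈ sphere (0 : ℂ) r, φ (y₀ + t • e) ≠ 0 := by
    intro t ht
    rw [mem_sphere_zero_iff_norm] at ht
    refine h5 ?_ ?_
    · rw [dist_zero_right, ht]
      exact hrη
    · intro h0
      rw [Set.mem_singleton_iff] at h0
      rw [h0, norm_zero] at ht
      linarith
  have hin : ∀ t ∈ closedBall (0 : ℂ) r, ∀ y : Vd n, dist y y₀ < ρ / 2 → y + t • e ∈ ball y₀ ρ := by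
    intro t ht y hy
    rw [mem_closedBall_zero_iff] at ht
    rw [mem_ball]
    calc dist (y + t • e) y₀ ≤ dist (y + t • e) y + dist y y₀ := dist_triangle _ _ _
      _ < ρ / 2 + ρ / 2 := by
        refine add_lt_add_of_le_of_lt ?_ hy
        rw [dist_eq_norm, add_sub_cancel_left, norm_smul]
        exact (mul_le_mul_of_nonneg_right ht (norm_nonneg e)).trans hreρ
      _ = ρ := by ring
  have hy₀ρ : dist y₀ y₀ < ρ / 2 := by
    rw [dist_self]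
    linarith
  have hcs : ContinuousOn (fun t : ℂ => ‖φ (y₀ + t • e)‖) (sphere 0 r) := by
    intro t ht
    have h7 : ContinuousAt φ (y₀ + t • e) := (h4 _ (hin t (sphere_subset_closedBall ht) y₀ hy₀ρ)).1.2.continuousAt
    have h8 : ContinuousAt (fun t : ℂ => y₀ + t • e) t := by fun_prop
    exact (ContinuousAt.comp (g := φ) (f := fun t : ℂ => y₀ + t • e) h7 h8).norm.continuousWithinAt
  obtain ⟨t₀, ht₀, hmin⟩ := (isCompact_sphere (0 : ℂ) r).exists_isMinOn (NormedSpace.sphere_nonempty.2 hr0.le) hcs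
  obtain ⟨c₂, hc₂⟩ : ∃ c₂ : ℝ, c₂ = ‖φ (y₀ + t₀ • e)‖ := ⟨_, rfl⟩
  have hc₂0 : 0 < c₂ := by
    rw [hc₂]
    exact norm_pos_iff.2 (h6 t₀ ht₀)
  have h7 : ∀ᶠ y in 𝓝 y₀, ∀ t ∈ sphere (0 : ℂ) r, c₂ / 2 < ‖φ (y + t • e)‖ := by
    refine (isCompact_sphere (0 : ℂ) r).eventually_forall_of_forall_eventually fun t ht => ?_
    have h8 : c₂ / 2 < ‖φ (y₀ + t • e)‖ := by
      have h9 : c₂ ≤ ‖φ (y₀ + t • e)‖ := by
        rw [hc₂]
        exact hmin ht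
      linarith
    have h9 : ContinuousAt φ (y₀ + t • e) := (h4 _ (hin t (sphere_subset_closedBall ht) y₀ hy₀ρ)).1.2.continuousAt
    have h10 : ContinuousAt (fun z : Vd n × ℂ => z.1 + z.2 • e) (y₀, t) := by fun_prop
    have h11 : ContinuousAt (fun z : Vd n × ℂ => ‖φ (z.1 + z.2 • e)‖) (y₀, t) :=
      (ContinuousAt.comp (g := φ) (f := fun z : Vd n × ℂ => z.1 + z.2 • e) h9 h10).norm
    exact h11.eventually (lt_mem_nhds h8)
  have hb : ∀ᶠ y in 𝓝 y₀, dist y y₀ < ρ / 2 := Metric.eventually_nhds_iff.2 ⟨ρ / 2, by linarith, fun {y} hy => hy⟩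
  refine ⟨c₂ / 2 * (‖ψ y₀‖ / 2) / (2 * ‖ψ y₀‖), by positivity, ?_⟩
  filter_upwards [h7, hb] with y hy1 hy2 x hx0 hxy d q hqh hqd
  -- the maximum of the form on the circle
  have hGan : ∀ t ∈ closedBall (0 : ℂ) r, DifferentiableAt ℂ (fun t : ℂ => q (ψ (y + t • e))) t := by
    intro t ht
    have h8 : DifferentiableAt ℂ ψ (y + t • e) := (h4 _ (hin t ht y hy2)).1.1.differentiableAt
    have h9 : DifferentiableAt ℂ (fun t : ℂ => y + t • e) t := by fun_prop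
    exact (hqd _).comp t (DifferentiableAt.comp (g := ψ) (f := fun t : ℂ => y + t • e) t h8 h9)
  have hGd : DiffContOnCl ℂ (fun t : ℂ => q (ψ (y + t • e))) (ball 0 r) := by
    constructor
    · exact fun t ht => (hGan t (ball_subset_closedBall ht)).differentiableWithinAt
    · rw [closure_ball _ hr0.ne']
      exact fun t ht => (hGan t ht).continuousAt.continuousWithinAt
  obtain ⟨t, ht, hmax⟩ := Complex.exists_mem_frontier_isMaxOn_norm isBounded_ball (nonempty_ball.2 hr0) hGd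
  rw [frontier_ball _ hr0.ne'] at ht
  have h8 : ‖q (ψ (y + (0 : ℂ) • e))‖ ≤ ‖q (ψ (y + t • e))‖ := hmax (subset_closure (mem_ball_self hr0))
  rw [zero_smul, add_zero] at h8
  have htc : t ∈ closedBall (0 : ℂ) r := sphere_subset_closedBall ht
  obtain ⟨-, ha1, ha2, hb2, hb3⟩ := h4 _ (hin t htc y hy2)
  have hd0 := hin 0 (mem_closedBall_self hr0.le) y hy2
  rw [zero_smul, add_zero] at hd0
  obtain ⟨-, -, hp0, hb20, hb30⟩ := h4 _ hd0
  have hψy : ψ y ≠ 0 := fun h => by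
    rw [h, norm_zero] at hb20
    linarith
  have hψt : ψ (y + t • e) ≠ 0 := fun h => by
    rw [h, norm_zero] at hb2
    linarith
  have hφt : φ (y + t • e) ≠ 0 := fun h => by
    have h9 := hy1 t ht
    rw [h, norm_zero] at h9
    linarith
  obtain ⟨g, -, hg⟩ := (Pool.Agent.H62.EF.pr_eq_iff hφt hψt).1 ((ha1 hφt).symm.trans ha2)
  obtain ⟨a, -, ha⟩ := (Pool.Agent.H62.EF.pr_eq_iff hx0 hψy).1 (hxy.trans hp0)
  refine ⟨y + t • e, ?_, ?_⟩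
  · rw [add_sub_cancel_left, norm_smul]
    rw [mem_sphere_zero_iff_norm] at ht
    rw [ht]
    exact hre1
  · have hg1 : c₂ / 2 / (2 * ‖ψ y₀‖) ≤ ‖g‖ := by
      rw [div_le_iff₀ (by positivity)]
      have h9 := hy1 t ht
      rw [hg, norm_smul] at h9
      have h10 : ‖g‖ * ‖ψ (y + t • e)‖ ≤ ‖g‖ * (2 * ‖ψ y₀‖) := mul_le_mul_of_nonneg_left hb3.le (norm_nonneg g)
      linarith
    have h10 : c₂ / 2 * (‖ψ y₀‖ / 2) / (2 * ‖ψ y₀‖) ≤ ‖g‖ * ‖ψ y‖ := by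
      calc c₂ / 2 * (‖ψ y₀‖ / 2) / (2 * ‖ψ y₀‖) = c₂ / 2 / (2 * ‖ψ y₀‖) * (‖ψ y₀‖ / 2) := by ring
        _ ≤ ‖g‖ * ‖ψ y‖ := mul_le_mul hg1 hb20.le (by positivity) (norm_nonneg g)
    have h11 : (c₂ / 2 * (‖ψ y₀‖ / 2) / (2 * ‖ψ y₀‖)) ^ d ≤ (‖g‖ * ‖ψ y‖) ^ d := pow_le_pow_left₀ (by positivity) h10 d
    rw [hg, ha, hqh, hqh, norm_mul, norm_mul, norm_pow, norm_pow, norm_smul]
    calc (c₂ / 2 * (‖ψ y₀‖ / 2) / (2 * ‖ψ y₀‖)) ^ d * (‖a‖ ^ d * ‖q (ψ y)‖)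
        ≤ (‖g‖ * ‖ψ y‖) ^ d * (‖a‖ ^ d * ‖q (ψ (y + t • e))‖) :=
          mul_le_mul h11 (mul_le_mul_of_nonneg_left h8 (by positivity)) (by positivity) (by positivity)
      _ = (‖a‖ * ‖ψ y‖) ^ d * (‖g‖ ^ d * ‖q (ψ (y + t • e))‖) := by ring

/-- uniformly on compact sets -/
private theorem cmp_unif {N n : ℕ} {φ : Vd n → EN N} {f : Vd n → MN N} {K : Set (Vd n)} (hK : IsCompact K)
    (h : ∀ y₀ ∈ K, AnalyticAt ℂ φ y₀ ∧ (¬ ∀ᶠ z in 𝓝 y₀, φ z = 0) ∧ (∀ᶠ z in 𝓝 y₀, φ z ≠ 0 → f z = pr (φ z)) ∧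
      ∃ ψ : Vd n → EN N, AnalyticAt ℂ ψ y₀ ∧ ψ y₀ ≠ 0 ∧ ∀ᶠ z in 𝓝 y₀, f z = pr (ψ z)) {ε : ℝ} (hε : 0 < ε) :
    ∃ c : ℝ, 0 < c ∧ ∀ y ∈ K, ∀ x : EN N, x ≠ 0 → pr x = f y → ∀ (d : ℕ) (q : EN N → ℂ), (∀ (a : ℂ) (x : EN N), q (a • x) = a ^ d * q x) →
      Differentiable ℂ q → ∃ y' : Vd n, ‖y' - y‖ ≤ ε ∧ c ^ d * ‖q x‖ ≤ ‖x‖ ^ d * ‖q (φ y')‖ := by
  refine hK.induction_on (p := fun K => ∃ c : ℝ, 0 < c ∧ ∀ y ∈ K, ∀ x : EN N, x ≠ 0 → pr x = f y → ∀ (d : ℕ) (q : EN N → ℂ),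
      (∀ (a : ℂ) (x : EN N), q (a • x) = a ^ d * q x) → Differentiable ℂ q → ∃ y' : Vd n, ‖y' - y‖ ≤ ε ∧ c ^ d * ‖q x‖ ≤ ‖x‖ ^ d * ‖q (φ y')‖) ?_ ?_ ?_ ?_
  · exact ⟨1, one_pos, fun y hy => absurd hy (Set.notMem_empty y)⟩
  · rintro s t hst ⟨c, hc, h⟩
    exact ⟨c, hc, fun y hy => h y (hst hy)⟩
  · rintro s t ⟨c, hc, h⟩ ⟨c', hc', h'⟩
    refine ⟨min c c', lt_min hc hc', fun y hy x hx hxy d q hq hqd => ?_⟩
    rcases hy with hy | hy
    · obtain ⟨y', h1, h2⟩ := h y hy x hx hxy d q hq hqd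
      exact ⟨y', h1, (mul_le_mul_of_nonneg_right (pow_le_pow_left₀ (lt_min hc hc').le (min_le_left _ _) d) (norm_nonneg _)).trans h2⟩
    · obtain ⟨y', h1, h2⟩ := h' y hy x hx hxy d q hq hqd
      exact ⟨y', h1, (mul_le_mul_of_nonneg_right (pow_le_pow_left₀ (lt_min hc hc').le (min_le_right _ _) d) (norm_nonneg _)).trans h2⟩
  · intro y₀ hy₀
    obtain ⟨h1, h2, h3, ψ, h4, h5, h6⟩ := h y₀ hy₀
    obtain ⟨c, hc, h7⟩ := cmp h1 h2 h4 h5 h3 h6 hε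
    exact ⟨_, mem_nhdsWithin_of_mem_nhds h7, c, hc, fun y hy => hy⟩

/-- lifts near a point, for all maps on the same ball -/
private theorem lifts_at {N n J : ℕ} {D : Set (Vd n)} {Φ : Fin J → Vd n → MN N}
    (hmer : ∀ j, ∀ y₀ : Vd n, ∃ φ : Vd n → EN N, AnalyticAt ℂ φ y₀ ∧ (¬ ∀ᶠ z in 𝓝 y₀, φ z = 0) ∧ ∀ᶠ z in 𝓝 y₀, z ∉ D → φ z ≠ 0 → Φ j z = pr (φ z)) (y₀ : Vd n) :
    ∃ (ρ : ℝ) (φ : Fin J → Vd n → EN N), 0 < ρ ∧ ∀ j, ∀ y ∈ ball y₀ (6 * ρ), AnalyticAt ℂ (φ j) y ∧ (¬ ∀ᶠ z in 𝓝 y, φ j z = 0) ∧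
      (y ∉ D → φ j y ≠ 0 → Φ j y = pr (φ j y)) := by
  choose φ h1 h2 h3 using fun j => hmer j y₀
  have h4 : ∀ᶠ z in 𝓝 y₀, ∀ j, AnalyticAt ℂ (φ j) z ∧ (z ∉ D → φ j z ≠ 0 → Φ j z = pr (φ j z)) :=
    eventually_all.2 fun j => (h1 j).eventually_analyticAt.and (h3 j)
  obtain ⟨r, hr, h5⟩ := Metric.eventually_nhds_iff_ball.1 h4
  refine ⟨r / 6, φ, by positivity, fun j y hy => ?_⟩
  have e : 6 * (r / 6) = r := by ring
  rw [e] at hy
  refine ⟨(h5 y hy j).1, fun h6 => h2 j ?_, (h5 y hy j).2⟩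
  have h7 := AnalyticOnNhd.eqOn_zero_of_preconnected_of_eventuallyEq_zero (f := φ j) (U := ball y₀ r) (fun z hz => (h5 z hz j).1)
    (convex_ball y₀ r).isPreconnected hy h6
  filter_upwards [ball_mem_nhds y₀ hr] with z hz
  exact h7 hz

private theorem exists_pos_le {ι : Type*} (t : Finset ι) {J : ℕ} {g : ι → Fin J → ℝ} (hg : ∀ c j, 0 < g c j) : ∃ ε : ℝ, 0 < ε ∧ ∀ c ∈ t, ∀ j, ε ≤ g c j := by
  have h1 : ∀ᶠ ε in 𝓝[>] (0 : ℝ), ∀ c ∈ t, ∀ j, ε ≤ g c j := by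
    rw [Filter.eventually_all_finset]
    intro c _
    rw [Filter.eventually_all]
    intro j
    have h2 : ∀ᶠ ε in 𝓝 (0 : ℝ), ε < g c j := gt_mem_nhds (hg c j)
    filter_upwards [h2.filter_mono nhdsWithin_le_nhds] with ε hε
    exact hε.le
  have h2 : ∀ᶠ ε in 𝓝[>] (0 : ℝ), 0 < ε := eventually_mem_nhdsWithin
  obtain ⟨ε, h3, h4⟩ := (h2.and h1).exists
  exact ⟨ε, h3, h4⟩

theorem exists_form_of_sections {N n J : ℕ} {P : Ideal (MvPolynomial (Fin (N + 1)) ℂ)} [P.IsPrime] {z : Fin (n + 1) → FunField P}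
    (hz : IsTranscendenceBasis ℂ z) (hX : ∃ i, (MvPolynomial.X i : MvPolynomial (Fin (N + 1)) ℂ) ∉ P)
    {Γ : AddSubgroup (Vd n)} (hΓ : ∃ R : ℝ, ∀ y : Vd n, ∃ l ∈ Γ, ‖y - l‖ ≤ R) {D : Set (Vd n)} (hD : IsClosed D) (hinv : ∀ y ∈ D, ∀ l ∈ Γ, y + l ∈ D)
    (thin : ∀ y₀ : Vd n, ∃ h : Vd n → ℂ, AnalyticAt ℂ h y₀ ∧ (∀ᶠ z in 𝓝 y₀, z ∈ D → h z = 0) ∧ ¬ ∀ᶠ z in 𝓝 y₀, h z = 0)
    {Φ : Fin J → Vd n → MN N} (hper : ∀ j, ∀ l ∈ Γ, ∀ y ∉ D, Φ j (y + l) = Φ j y)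
    (hmer : ∀ j, ∀ y₀ : Vd n, ∃ φ : Vd n → EN N, AnalyticAt ℂ φ y₀ ∧ (¬ ∀ᶠ z in 𝓝 y₀, φ z = 0) ∧ ∀ᶠ z in 𝓝 y₀, z ∉ D → φ z ≠ 0 → Φ j z = pr (φ z))
    (hhol : ∀ j, ∀ y₀ ∉ D, ∃ φ : Vd n → EN N, AnalyticAt ℂ φ y₀ ∧ φ y₀ ≠ 0 ∧ ∀ᶠ z in 𝓝 y₀, Φ j z = pr (φ z)) :
    ∃ (d : ℕ) (Q : MvPolynomial (Fin (N + 1)) ℂ), 1 ≤ d ∧ Q.IsHomogeneous d ∧ Q ∉ P ∧ ∀ j, ∀ y ∉ D, ∀ x : EN N, x ≠ 0 → pr x = Φ j y → eval ((LE N).symm x) Q = 0 := by
  obtain ⟨R, hR⟩ := hΓ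
  choose ρ φ hρ hφ using fun y₀ => lifts_at hmer y₀
  obtain ⟨t, htK, ht⟩ := (isCompact_closedBall (0 : Vd n) |R|).elim_nhds_subcover (fun c => ball c (ρ c)) (fun c _ => ball_mem_nhds c (hρ c))
  obtain ⟨ε, hε, hεt'⟩ := exists_pos_le (J := 1) t (g := fun c _ => ρ c) (fun c _ => hρ c)
  have hεt : ∀ c ∈ t, ε ≤ ρ c := fun c hc => hεt' c hc 0
  obtain ⟨δ, hδ, hcirc⟩ := circle_small hD thin (K := ⋃ c ∈ t, closedBall c (4 * ρ c)) (t.isCompact_biUnion fun c _ => isCompact_closedBall c _) hε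
  obtain ⟨G, hG⟩ : ∃ G : Set (Vd n), G = {y | ∀ b ∈ D, δ ≤ ‖y - b‖} := ⟨_, rfl⟩
  have hGc : IsClosed G := by
    have h1 : G = ⋂ b ∈ D, {y | δ ≤ ‖y - b‖} := by
      rw [hG]
      ext y
      simp
    rw [h1]
    exact isClosed_biInter fun b _ => isClosed_le continuous_const (by fun_prop)
  have hGD : ∀ y ∈ G, y ∉ D := by
    intro y hy hyD
    rw [hG] at hy
    have := hy y hyD
    rw [sub_self, norm_zero] at this
    linarith
  -- translation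
  have htr : ∀ y : Vd n, y ∉ D → ∃ (l : Vd n) (c : Vd n), l ∈ Γ ∧ c ∈ t ∧ y - l ∈ ball c (ρ c) ∧ y - l ∉ D ∧ (y ∈ G → y - l ∈ G) ∧ ∀ j, Φ j (y - l) = Φ j y := by
    intro y hy
    obtain ⟨l, hl, hyl⟩ := hR y
    have h1 : y - l ∈ closedBall (0 : Vd n) |R| := mem_closedBall_zero_iff.2 (hyl.trans (le_abs_self R))
    have h2 := ht h1
    simp only [Set.mem_iUnion, exists_prop] at h2
    obtain ⟨c, hc, hcb⟩ := h2
    have h3 : y - l ∉ D := by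
      intro h4
      have h5 := hinv _ h4 l hl
      rw [sub_add_cancel] at h5
      exact hy h5
    refine ⟨l, c, hl, hc, hcb, h3, fun hyG => ?_, fun j => ?_⟩
    · rw [hG] at hyG ⊢
      intro b hb
      have h6 := hyG _ (hinv b hb l hl)
      have h7 : y - l - b = y - (b + l) := by abel
      rw [h7]
      exact h6
    · have h6 := hper j l hl _ h3
      rw [sub_add_cancel] at h6
      exact h6.symm
  -- the hypotheses of the comparison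
  have hcmpH : ∀ (c : Vd n) (j : Fin J), ∀ y₀ ∈ ball c (6 * ρ c), y₀ ∉ D → AnalyticAt ℂ (φ c j) y₀ ∧ (¬ ∀ᶠ z in 𝓝 y₀, φ c j z = 0) ∧
      (∀ᶠ z in 𝓝 y₀, φ c j z ≠ 0 → Φ j z = pr (φ c j z)) ∧ ∃ ψ : Vd n → EN N, AnalyticAt ℂ ψ y₀ ∧ ψ y₀ ≠ 0 ∧ ∀ᶠ z in 𝓝 y₀, Φ j z = pr (ψ z) := by
    intro c j y₀ hy₀ hy₀D
    refine ⟨(hφ c j y₀ hy₀).1, (hφ c j y₀ hy₀).2.1, ?_, hhol j y₀ hy₀D⟩
    filter_upwards [isOpen_ball.mem_nhds hy₀, hD.isOpen_compl.mem_nhds hy₀D] with z hz hzD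
    exact (hφ c j z hz).2.2 hzD
  have hsub1 : ∀ c : Vd n, closedBall c (ρ c) ⊆ ball c (6 * ρ c) := fun c => closedBall_subset_ball (by linarith [hρ c])
  choose c₁ hc₁ hcmp₁ using fun (c : Vd n) (j : Fin J) => cmp_unif (φ := φ c j) (f := Φ j) ((isCompact_closedBall c (ρ c)).inter_right hGc)
    (fun y₀ hy₀ => hcmpH c j y₀ (hsub1 c hy₀.1) (hGD y₀ hy₀.2)) hε
  obtain ⟨c₀, hc₀, hc₀le⟩ := exists_pos_le t hc₁
  -- the bound of the lifts
  obtain ⟨C₁, hC₁, hbd⟩ : ∃ C₁ : ℝ, 0 < C₁ ∧ ∀ c ∈ t, ∀ j, ∀ y ∈ closedBall c (5 * ρ c), ‖φ c j y‖ ≤ C₁ := by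
    have h1 : ∀ (c : Vd n) (j : Fin J), ∃ b : ℝ, ∀ y ∈ closedBall c (5 * ρ c), ‖φ c j y‖ ≤ b := by
      intro c j
      have h2 : ContinuousOn (fun y => ‖φ c j y‖) (closedBall c (5 * ρ c)) := fun y hy =>
        (hφ c j y (closedBall_subset_ball (by linarith [hρ c]) hy)).1.continuousAt.norm.continuousWithinAt
      obtain ⟨b, hb⟩ := (isCompact_closedBall c (5 * ρ c)).bddAbove_image h2
      exact ⟨b, fun y hy => hb ⟨y, hy, rfl⟩⟩
    choose b hb using h1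
    refine ⟨1 + ∑ c ∈ t, ∑ j, |b c j|, by positivity, fun c hc j y hy => (hb c j y hy).trans ?_⟩
    have h2 : |b c j| ≤ ∑ j, |b c j| := Finset.single_le_sum (f := fun j => |b c j|) (fun _ _ => abs_nonneg _) (Finset.mem_univ j)
    have h3 : ∑ j, |b c j| ≤ ∑ c ∈ t, ∑ j, |b c j| :=
      Finset.single_le_sum (f := fun c => ∑ j, |b c j|) (fun _ _ => Finset.sum_nonneg fun _ _ => abs_nonneg _) hc
    linarith [le_abs_self (b c j)]
  obtain ⟨κ, hκ⟩ : ∃ κ : ℕ, C₁ * (1 / 2) ^ κ ≤ c₀ / 2 := by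
    obtain ⟨κ, hκ⟩ := exists_pow_lt_of_lt_one (show (0 : ℝ) < c₀ / (2 * C₁) by positivity) (show (1 / 2 : ℝ) < 1 by norm_num)
    refine ⟨κ, ?_⟩
    have h1 := mul_le_mul_of_nonneg_left hκ.le hC₁.le
    have h2 : C₁ * (c₀ / (2 * C₁)) = c₀ / 2 := by field_simp
    rwa [h2] at h1
  obtain ⟨d, hd, hcount⟩ := Pool.Agent.H22.AlgD.exists_form_of_conditions (Nat.lt_succ_self n) hz hX (t.card * J * κ ^ n)
  have hshift : ∀ (c w : Vd n) (j : Fin J), w ∈ ball (0 : Vd n) (6 * ρ c) → AnalyticAt ℂ (fun w => (LE N).symm (φ c j (c + w))) w := by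
    intro c w j hw
    have h1 : c + w ∈ ball c (6 * ρ c) := by
      rw [mem_ball, dist_eq_norm, add_sub_cancel_left]
      simpa using hw
    have h2 : AnalyticAt ℂ (fun w : Vd n => c + w) w := analyticAt_const.add analyticAt_id
    have h3 := AnalyticAt.fun_comp (g := φ c j) (f := fun w : Vd n => c + w) (hφ c j _ h1).1 h2
    exact AnalyticAt.fun_comp (g := (LE N).symm) (((LE N).symm : EN N →L[ℂ] (Fin (N + 1) → ℂ)).analyticAt _) h3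
  have hF00 : ∀ i : t × Fin J, AnalyticAt ℂ (fun w => (LE N).symm (φ i.1 i.2 (i.1 + w))) 0 := fun i =>
    hshift i.1 0 i.2 (mem_ball_self (by linarith [hρ i.1]))
  obtain ⟨Q, hQ, hQP, hQL⟩ := hcount ((i : t × Fin J) → Pool.Agent.H22.AlgD.monSpace n (κ * d))
    (by
      rw [Module.finrank_pi_fintype]
      calc ∑ _i : t × Fin J, Module.finrank ℂ (Pool.Agent.H22.AlgD.monSpace n (κ * d)) ≤ ∑ _i : t × Fin J, (κ * d) ^ n :=
            Finset.sum_le_sum fun _ _ => Pool.Agent.H22.AlgD.finrank_monSpace_le _ _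
        _ = t.card * J * κ ^ n * d ^ n := by
            rw [Finset.sum_const, Finset.card_univ, Fintype.card_prod, Fintype.card_coe, Fintype.card_fin, smul_eq_mul, mul_pow, mul_assoc, mul_assoc, mul_assoc])
    (LinearMap.pi fun i => Pool.Agent.H22.AlgD.taylor (hF00 i) (κ * d))
  have hQT : ∀ i, Pool.Agent.H22.AlgD.taylor (hF00 i) (κ * d) Q = 0 := fun i => congrFun hQL i
  -- the function `q`
  obtain ⟨q, hqdef⟩ : ∃ q : EN N → ℂ, q = fun x => eval ((LE N).symm x) Q := ⟨_, rfl⟩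
  have hqh : ∀ (a : ℂ) (x : EN N), q (a • x) = a ^ d * q x := by
    intro a x
    rw [hqdef]
    simp only
    rw [map_smul, Pool.Agent.H22.AlgD.eval_smul_form hQ]
  have hqd : Differentiable ℂ q := by
    intro x
    rw [hqdef]
    exact (Pool.Agent.H22.AlgD.analyticAt_eval (F := fun x : EN N => (LE N).symm x) (((LE N).symm : EN N →L[ℂ] (Fin (N + 1) → ℂ)).analyticAt x) Q).differentiableAt
  have hq0 : q 0 = 0 := by
    have h1 := hqh 0 0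
    rw [zero_smul, zero_pow (by omega), zero_mul] at h1
    exact h1
  obtain ⟨C, hC, hCb⟩ : ∃ C : ℝ, 0 ≤ C ∧ ∀ x : EN N, ‖q x‖ ≤ C * ‖x‖ ^ d := by
    obtain ⟨C, hC, hCb⟩ := Pool.Agent.TG.norm_eval_le hQ
    refine ⟨C * ‖((LE N).symm : EN N →L[ℂ] (Fin (N + 1) → ℂ))‖ ^ d, by positivity, fun x => ?_⟩
    rw [hqdef]
    refine (hCb _).trans ?_
    rw [mul_assoc, ← mul_pow]
    refine mul_le_mul_of_nonneg_left (pow_le_pow_left₀ (norm_nonneg _) ?_ d) hC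
    exact ((LE N).symm : EN N →L[ℂ] (Fin (N + 1) → ℂ)).le_opNorm x
  refine ⟨d, Q, hd, hQ, hQP, ?_⟩
  -- the bound on `G` gives a bound on the balls
  have hstepA : ∀ S : ℝ, 0 ≤ S → (∀ j, ∀ y ∈ G, ∀ x : EN N, x ≠ 0 → pr x = Φ j y → ‖q x‖ ≤ S * ‖x‖ ^ d) →
      ∀ c ∈ t, ∀ j, ∀ y ∈ closedBall c (4 * ρ c), ‖q (φ c j y)‖ ≤ S * C₁ ^ d := by
    intro S hS hbdS c hc j y hy
    obtain ⟨e, r, hr, hre, hc'⟩ := hcirc y (by
      simp only [Set.mem_iUnion, exists_prop]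
      exact ⟨c, hc, hy⟩)
    have hin : ∀ s : ℂ, ‖s‖ ≤ r → y + s • e ∈ closedBall c (5 * ρ c) := by
      intro s hs
      rw [mem_closedBall] at hy ⊢
      calc dist (y + s • e) c ≤ dist (y + s • e) y + dist y c := dist_triangle _ _ _
        _ ≤ ρ c + 4 * ρ c := by
          refine add_le_add ?_ hy
          rw [dist_eq_norm, add_sub_cancel_left, norm_smul]
          exact ((mul_le_mul_of_nonneg_right hs (norm_nonneg e)).trans hre).trans (hεt c hc)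
        _ = 5 * ρ c := by ring
    have h56 : closedBall c (5 * ρ c) ⊆ ball c (6 * ρ c) := closedBall_subset_ball (by linarith [hρ c])
    have hgan : ∀ s ∈ closedBall (0 : ℂ) r, DifferentiableAt ℂ (fun s : ℂ => q (φ c j (y + s • e))) s := by
      intro s hs
      rw [mem_closedBall_zero_iff] at hs
      have h8 : DifferentiableAt ℂ (φ c j) (y + s • e) := (hφ c j _ (h56 (hin s hs))).1.differentiableAt
      have h9 : DifferentiableAt ℂ (fun s : ℂ => y + s • e) s := by fun_prop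
      exact (hqd _).comp s (DifferentiableAt.comp (g := φ c j) (f := fun s : ℂ => y + s • e) s h8 h9)
    have hgd : DiffContOnCl ℂ (fun s : ℂ => q (φ c j (y + s • e))) (ball 0 r) := by
      constructor
      · exact fun s hs => (hgan s (ball_subset_closedBall hs)).differentiableWithinAt
      · rw [closure_ball _ hr.ne']
        exact fun s hs => (hgan s hs).continuousAt.continuousWithinAt
    obtain ⟨s, hs, hmax⟩ := Complex.exists_mem_frontier_isMaxOn_norm isBounded_ball (nonempty_ball.2 hr) hgd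
    rw [frontier_ball _ hr.ne', mem_sphere_zero_iff_norm] at hs
    have h7 : ‖q (φ c j (y + (0 : ℂ) • e))‖ ≤ ‖q (φ c j (y + s • e))‖ := hmax (subset_closure (mem_ball_self hr))
    rw [zero_smul, add_zero] at h7
    have hyG : y + s • e ∈ G := by
      rw [hG]
      exact fun b hb => hc' s hs b hb
    refine h7.trans ?_
    by_cases h0 : φ c j (y + s • e) = 0
    · rw [h0, hq0, norm_zero]
      positivity
    · have h8 := (hφ c j _ (h56 (hin s hs.le))).2.2 (hGD _ hyG) h0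
      refine (hbdS j _ hyG _ h0 h8.symm).trans ?_
      exact mul_le_mul_of_nonneg_left (pow_le_pow_left₀ (norm_nonneg _) (hbd c hc j _ (hin s hs.le)) d) hS
  -- the bound can be halved
  have hstepB : ∀ S : ℝ, 0 ≤ S → (∀ j, ∀ y ∈ G, ∀ x : EN N, x ≠ 0 → pr x = Φ j y → ‖q x‖ ≤ S * ‖x‖ ^ d) →
      ∀ j, ∀ y ∈ G, ∀ x : EN N, x ≠ 0 → pr x = Φ j y → ‖q x‖ ≤ S / 2 * ‖x‖ ^ d := by
    intro S hS hbdS j y hy x hx hxy
    obtain ⟨l, c, hl, hc, hcb, hylD, hylG, hΦl⟩ := htr y (hGD y hy)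
    obtain ⟨y', hy', h1'⟩ := hcmp₁ c j (y - l) ⟨ball_subset_closedBall hcb, hylG hy⟩ x hx (by rw [hΦl j]; exact hxy) d q hqh hqd
    have h1 : c₀ ^ d * ‖q x‖ ≤ ‖x‖ ^ d * ‖q (φ c j y')‖ :=
      (mul_le_mul_of_nonneg_right (pow_le_pow_left₀ hc₀.le (hc₀le c hc j) d) (norm_nonneg _)).trans h1'
    have hy'c : ‖y' - c‖ ≤ 2 * ρ c := by
      rw [mem_ball, dist_eq_norm] at hcb
      calc ‖y' - c‖ = ‖(y' - (y - l)) + (y - l - c)‖ := by congr 1; abel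
        _ ≤ ‖y' - (y - l)‖ + ‖y - l - c‖ := norm_add_le _ _
        _ ≤ ρ c + ρ c := add_le_add (hy'.trans (hεt c hc)) hcb.le
        _ = 2 * ρ c := by ring
    have hρc := hρ c
    have hy'b : y' - c ∈ ball (0 : Vd n) (4 * ρ c) := by
      rw [mem_ball_zero_iff]
      linarith
    have hcy' : c + (y' - c) = y' := by abel
    have h2 : ‖q (φ c j y')‖ ≤ S * C₁ ^ d * (‖y' - c‖ / (4 * ρ c)) ^ (κ * d) := by
      have h3 := Pool.Agent.H22.AlgD.norm_le_of_iteratedFDeriv (E := Vd n) (m := κ * d) (G := fun w => eval ((LE N).symm (φ c j (c + w))) Q)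
        (R := 4 * ρ c) (M := S * C₁ ^ d) (by positivity)
        (fun w hw => Pool.Agent.H22.AlgD.analyticAt_eval (hshift c w j (ball_subset_ball (by linarith) hw)) Q)
        (fun w hw => by
          have h4 := hstepA S hS hbdS c hc j (c + w) (by
            rw [mem_closedBall, dist_eq_norm, add_sub_cancel_left]
            rw [mem_ball_zero_iff] at hw
            exact hw.le)
          rw [hqdef] at h4
          exact h4)
        (fun k hk w => Pool.Agent.H22.AlgD.eq_zero_of_taylor (hF00 (⟨c, hc⟩, j)) (hQT (⟨c, hc⟩, j)) hk w) hy'b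
      simp only [hcy'] at h3
      rw [hqdef]
      exact h3
    have h3 : (‖y' - c‖ / (4 * ρ c)) ^ (κ * d) ≤ (1 / 2) ^ (κ * d) := by
      refine pow_le_pow_left₀ (by positivity) ?_ _
      rw [div_le_iff₀ (by positivity)]
      linarith
    have h4 : ‖q (φ c j y')‖ ≤ S * (C₁ * (1 / 2) ^ κ) ^ d := by
      calc ‖q (φ c j y')‖ ≤ S * C₁ ^ d * (‖y' - c‖ / (4 * ρ c)) ^ (κ * d) := h2
        _ ≤ S * C₁ ^ d * (1 / 2) ^ (κ * d) := mul_le_mul_of_nonneg_left h3 (by positivity)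
        _ = S * (C₁ * (1 / 2) ^ κ) ^ d := by
          rw [pow_mul]
          ring
    have h5 : (C₁ * (1 / 2) ^ κ) ^ d ≤ c₀ ^ d * (1 / 2) := by
      calc (C₁ * (1 / 2) ^ κ) ^ d ≤ (c₀ / 2) ^ d := pow_le_pow_left₀ (by positivity) hκ d
        _ = c₀ ^ d * (1 / 2) ^ d := by
          rw [← mul_pow]
          ring
        _ ≤ c₀ ^ d * (1 / 2) ^ 1 := mul_le_mul_of_nonneg_left (pow_le_pow_of_le_one (by norm_num) (by norm_num) hd) (by positivity)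
        _ = c₀ ^ d * (1 / 2) := by rw [pow_one]
    have h6 : c₀ ^ d * ‖q x‖ ≤ c₀ ^ d * (S / 2 * ‖x‖ ^ d) := by
      calc c₀ ^ d * ‖q x‖ ≤ ‖x‖ ^ d * ‖q (φ c j y')‖ := h1
        _ ≤ ‖x‖ ^ d * (S * (c₀ ^ d * (1 / 2))) :=
          mul_le_mul_of_nonneg_left (h4.trans (mul_le_mul_of_nonneg_left h5 hS)) (by positivity)
        _ = c₀ ^ d * (S / 2 * ‖x‖ ^ d) := by ring
    exact le_of_mul_le_mul_left h6 (by positivity)
  -- so the form vanishes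
  have hk : ∀ k : ℕ, ∀ j, ∀ y ∈ G, ∀ x : EN N, x ≠ 0 → pr x = Φ j y → ‖q x‖ ≤ C / 2 ^ k * ‖x‖ ^ d := by
    intro k
    induction k with
    | zero =>
      intro j y _ x _ _
      rw [pow_zero, div_one]
      exact hCb x
    | succ k ih =>
      have h1 := hstepB (C / 2 ^ k) (by positivity) ih
      intro j y hy x hx hxy
      have h2 := h1 j y hy x hx hxy
      rwa [div_div, ← pow_succ] at h2
  have h0 : ∀ j, ∀ y ∈ G, ∀ x : EN N, x ≠ 0 → pr x = Φ j y → ‖q x‖ ≤ 0 * ‖x‖ ^ d := by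
    intro j y hy x hx hxy
    have ht : Tendsto (fun k : ℕ => C / 2 ^ k * ‖x‖ ^ d) atTop (𝓝 (0 * ‖x‖ ^ d)) := by
      refine Tendsto.mul_const _ ?_
      have h1 : Tendsto (fun k : ℕ => C * (1 / 2 : ℝ) ^ k) atTop (𝓝 (C * 0)) :=
        (tendsto_pow_atTop_nhds_zero_of_lt_one (by norm_num) (by norm_num)).const_mul C
      rw [mul_zero] at h1
      refine h1.congr fun k => ?_
      rw [one_div, inv_pow, div_eq_mul_inv]
    exact ge_of_tendsto' ht fun k => hk k j y hy x hx hxy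
  intro j y hy x hx hxy
  obtain ⟨l, c, hl, hc, hcb, hylD, hylG, hΦl⟩ := htr y hy
  obtain ⟨g1, g2, g3, ψ, g4, g5, g6⟩ := hcmpH c j (y - l) (hsub1 c (ball_subset_closedBall hcb)) hylD
  obtain ⟨c', hc', h7⟩ := cmp g1 g2 g4 g5 g3 g6 hε
  obtain ⟨y', hy', h8⟩ := h7.self_of_nhds x hx (by rw [hΦl j]; exact hxy) d q hqh hqd
  have hy'c : y' ∈ closedBall c (4 * ρ c) := by
    rw [mem_closedBall, dist_eq_norm]
    rw [mem_ball, dist_eq_norm] at hcb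
    have hρc := hρ c
    calc ‖y' - c‖ = ‖(y' - (y - l)) + (y - l - c)‖ := by congr 1; abel
      _ ≤ ‖y' - (y - l)‖ + ‖y - l - c‖ := norm_add_le _ _
      _ ≤ ρ c + ρ c := add_le_add (hy'.trans (hεt c hc)) hcb.le
      _ ≤ 4 * ρ c := by linarith
  have h9 := hstepA 0 le_rfl h0 c hc j y' hy'c
  rw [zero_mul] at h9
  have h10 : ‖q (φ c j y')‖ = 0 := le_antisymm h9 (norm_nonneg _)
  rw [h10, mul_zero] at h8
  have h11 : ‖q x‖ ≤ 0 := by
    by_contra hcon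
    push Not at hcon
    have := mul_pos (pow_pos hc' d) hcon
    linarith
  have h12 := norm_le_zero_iff.1 h11
  rw [hqdef] at h12
  exact h12

end Pool.Agent.G3
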