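import Pool.Agent.G3.F.FDefs
import Pool.Agent.G3.Z.CDefs
import Pool.Agent.TG.GuF
import Pool.Agent.H19T.FPic

/-!
# G3 F Ln: the entire curves over lines, in the projective space

`S' =` the set of the maps `y ↦` the point of the projective space with the projection matrix `Φ y` (by choice; `H19T`: `prP`, `prP_injective`), `Φ ∈ S`.  `Csf.hol`, `Csf.cls`; entire lifts of `f` (`H17.exists_global_lift`).
-/

set_option autoImplicit false

open Topology Filter Metric MvPolynomial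

namespace Pool.Agent.G3

open Pool.Agent.H17 (PN VanishesAt HolomorphicInto puncturedDisc)
open Pool.Agent.H62.FC (Homog)
open Pool.Agent.H17LG.Variety (FunField IsLogGeneralType)
open Pool.Agent.H17EF (projVar coneE LE mem_coneE mk_mem_projVar)
open Pool.Agent.H36.BP (EN fs wd Sub Curve)
open Pool.Agent.H14.PP (IsCone CurveAt Tan)
open Pool.Agent.H62.EF (MN pr)
open Pool.Agent.AD (Vd Chart Charts uV IsHolomorphicTorusMap)
open Pool.Agent.TG (TMap Lat Geo Gd VForm Fb)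
open Pool.Agent.TGF (Cn Over IsDiscriminant)
open Pool.Agent.G3F

variable {N k : ℕ} {P : Ideal (MvPolynomial (Fin (N + 1)) ℂ)} {Λ : AddSubgroup (Cn (k + 1))} {u : PN N → Cn (k + 1) ⧸ Λ} {D B : Set (Cn (k + 1))}

open Classical in
/-- the map to the projective space -/
private noncomputable def toPN (Φ : Vd (k + 1) → MN N) (y : Cn (k + 1)) : PN N :=
  if h : ∃ x : PN N, Pool.Agent.H17EF.prP x = Φ y then h.choose
  else Projectivization.mk ℂ (Pi.single (0 : Fin (N + 1)) (1 : ℂ)) (by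
    intro h0
    have h1 := congrFun h0 0
    rw [Pi.single_eq_same, Pi.zero_apply] at h1
    exact one_ne_zero h1)

private theorem toPN_eq {Φ : Vd (k + 1) → MN N} {y : Cn (k + 1)} {x : PN N} (h : Pool.Agent.H17EF.prP x = Φ y) : toPN Φ y = x := by
  have h1 : ∃ x : PN N, Pool.Agent.H17EF.prP x = Φ y := ⟨x, h⟩
  unfold toPN
  rw [dif_pos h1]
  exact Pool.Agent.H17EF.prP_injective (h1.choose_spec.trans h.symm)

theorem lines_pn (hP : Homog P) {S : Set (Vd (k + 1) → MN N)} (hS : Csf (coneE P) Λ (uV Λ u) D S) :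
    ∃ S : Set (Cn (k + 1) → PN N), S.Finite ∧ (∀ Φ ∈ S, ∀ y ∉ D, ∃ φ : Cn (k + 1) → Cn (N + 1), AnalyticAt ℂ φ y ∧
      ∀ᶠ z in 𝓝 y, Over (projVar P) Λ u z (φ z) ∧ ∃ h : φ z ≠ 0, Φ z = Projectivization.mk ℂ (φ z) h) ∧
    ∀ f : ℂ → PN N, HolomorphicInto f Set.univ → (∀ z, f z ∈ projVar P) → ∀ a b : Cn (k + 1), a ≠ 0 →
      (∀ z, u (f z) = ((z • a + b : Cn (k + 1)) : Cn (k + 1) ⧸ Λ)) → ∃ Φ ∈ S, ∀ z : ℂ, z • a + b ∉ D → f z = Φ (z • a + b) := by
  refine ⟨toPN '' S, hS.fin.image _, ?_, ?_⟩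
  · rintro _ ⟨Φ, hΦ, rfl⟩ y hy
    obtain ⟨φ, hφ, hφe⟩ := hS.hol Φ hΦ y hy
    refine ⟨fun z => (LE N).symm (φ z), AnalyticAt.comp (g := fun x : EN N => (LE N).symm x) (f := φ)
      (((LE N).symm : EN N →L[ℂ] (Fin (N + 1) → ℂ)).analyticAt _) hφ, ?_⟩
    filter_upwards [hφe] with z hz
    obtain ⟨h1, h2, h3⟩ := hz
    refine ⟨(Pool.Agent.TGF.over_iff hP).2 ⟨h1, h3⟩, h1.1, ?_⟩
    exact toPN_eq ((Pool.Agent.H17EF.mk_symm h1.1).trans h2.symm)
  · intro f hf hfX a b ha hu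
    obtain ⟨F, hF, hFf⟩ := Pool.Agent.H17EF.exists_lift hf
    have hFX : ∀ z, F z ∈ coneE P := by
      intro z
      obtain ⟨h, he⟩ := hFf z
      rw [mem_coneE hP]
      exact ⟨h, he ▸ hfX z⟩
    have hcv : Cv (coneE P) Λ (uV Λ u) Set.univ F (fun z => z • a + b) := by
      refine ⟨hF.differentiableOn, by fun_prop, fun z _ => hFX z, fun z _ => ?_⟩
      obtain ⟨h, he⟩ := hFf z
      rw [Pool.Agent.AD.sub_mem_iff, Pool.Agent.AD.uV_eq Λ u h, ← he]
      exact hu z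
    obtain ⟨Φ, hΦ, hΦe⟩ := hS.cls a ha b F hcv
    refine ⟨toPN Φ, ⟨Φ, hΦ, rfl⟩, fun z hz => ?_⟩
    obtain ⟨h, he⟩ := hFf z
    have h1 := hΦe z hz
    refine (toPN_eq ?_).symm
    rw [he, Pool.Agent.H17EF.mk_symm h, h1]

end Pool.Agent.G3
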