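import Pool.Agent.G3.F.FDefs
import Pool.Agent.TG.GuF
import Pool.Agent.G3.Z.CDefs
import Pool.Agent.G3.R.Root
import Pool.Agent.H56.G3.Pc7

/-!
# G3 F Pic: extension over the puncture, in the cone

The proof is in `H56/G3/Pc0` to `Pc7` (growth of the lift on the half plane, `LCT` at the points of support, removable singularities).
-/

set_option autoImplicit false

open Topology Filter Metric MvPolynomial

namespace Pool.Agent.G3

open Pool.Agent.H17 (PN VanishesAt HolomorphicInto puncturedDisc)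
open Pool.Agent.H62.FC (Homog)
open Pool.Agent.H17LG.Variety (FunField IsLogGeneralType)
open Pool.Agent.H17EF (projVar coneE LE mem_coneE mk_mem_projVar)
open Pool.Agent.H36.BP (EN fs wd Sub Curve)
open Pool.Agent.H14.PP (IsCone CurveAt Tan)
open Pool.Agent.H62.EF (MN pr)
open Pool.Agent.AD (Vd Chart Charts uV IsHolomorphicTorusMap)
open Pool.Agent.TG (TMap Lat Geo Gd VForm Fb)
open Pool.Agent.TGF (Cn Over IsDiscriminant)
open Pool.Agent.G3F

variable {N k : ℕ} {X : Set (EN N)} {Λ : AddSubgroup (Vd (k + 1))} {u : EN N → Vd (k + 1)} {D B : Set (Vd (k + 1))} {p : EN N → EN N → ℝ} {m d : ℕ} {C C₁ : ℝ}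
  {Q : EN N → ℂ}

theorem picard_cone (G : Geo X Λ u D B) (hP : PS X Λ u D p m C) (hQ : QD X Λ u D Q d) (hR : RootLog X Λ u Q d p m C₁) (hL : LCT X Λ u Q d p m)
    {F : ℂ → EN N} (hF : Curve X (ball 0 1 \ {0}) F) (h0 : ∃ z ∈ ball (0 : ℂ) 1 \ {0}, Q (F z) ≠ 0) :
    ∃ g : ℂ → EN N, AnalyticAt ℂ g 0 ∧ g 0 ≠ 0 ∧ ∀ᶠ z in 𝓝[≠] (0 : ℂ), ∃ k : ℂ, k ≠ 0 ∧ g z = k • F z := by
  exact Pool.Agent.H56.G3.picard G.cone G.tor G.lat G.D_closed hP hQ hR hL hF h0

end Pool.Agent.G3
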