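import Pool.Agent.G3.F.FDefs
import Pool.Agent.H19T.FPic
import Pool.Agent.AD.V.KobFs
import Pool.Agent.H22.TB.OfSheets
import Pool.Agent.H23.GU.Down
import Pool.Agent.G3.Defs
import Pool.Agent.H17EF.Closed

/-!
# G3 F Pn: from the cone to the projective space

`brody_pn`: entire lift of `f` to the cone (`H17.exists_global_lift`; see `H19T/FAsmB`).  `picard_pn`: `H19T.extends_of_cone` with `D = {x | Q x = 0}`, `Ξ = {x | VanishesAt Q x}`.  `kob_pn`: as `AD.kobayashi_of_fs`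
(`AD/V/KobFs`): lift of `f` on the disc of radius `1/2`, reparametrised, and multiplied by a constant so that its value at `0` is near `x.rep` (the lift `F` given in the definition has the value `v` near `x.rep`).
`gglc_pn`: `AD.P.strongly_one`, `H22.TB.eq_of_basis` as in `H22.TB.gglc_of_sheets`; the dimension is at least `1` (for the irrelevant ideal the variety is empty).
-/

set_option autoImplicit false

open Topology Filter Metric MvPolynomial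

namespace Pool.Agent.G3

open Pool.Agent.H17 (PN VanishesAt HolomorphicInto puncturedDisc)
open Pool.Agent.H62.FC (Homog)
open Pool.Agent.H17LG.Variety (FunField IsLogGeneralType)
open Pool.Agent.H17EF (projVar coneE LE mem_coneE mk_mem_projVar)
open Pool.Agent.H36.BP (EN fs wd Sub Curve)
open Pool.Agent.H14.PP (IsCone CurveAt Tan)
open Pool.Agent.H62.EF (MN pr)
open Pool.Agent.AD (Vd Chart Charts uV IsHolomorphicTorusMap)
open Pool.Agent.TG (TMap Lat Geo Gd VForm Fb)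
open Pool.Agent.TGF (Cn Over IsDiscriminant)
open Pool.Agent.G3F

variable {N k : ℕ} {P : Ideal (MvPolynomial (Fin (N + 1)) ℂ)} {Λ : AddSubgroup (Cn (k + 1))} {u : PN N → Cn (k + 1) ⧸ Λ} {D B : Set (Cn (k + 1))}

theorem brody_pn (hP : Homog P) {Q : MvPolynomial (Fin (N + 1)) ℂ} {e : ℕ} (hQ : Q.IsHomogeneous e)
    (h : ∀ F : ℂ → EN N, Differentiable ℂ F → (∀ z, F z ∈ coneE P) → (∃ z, eval ((LE N).symm (F z)) Q ≠ 0) → ∀ z w, ∃ c : ℂ, F z = c • F w)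
    (f : ℂ → PN N) (hf : HolomorphicInto f Set.univ) (hfX : ∀ z, f z ∈ projVar P) (hne : ∃ z w, f z ≠ f w) (z : ℂ) : VanishesAt Q (f z) := by
  obtain ⟨F, hFd, hFf⟩ := Pool.Agent.H17EF.exists_lift hf
  have hFX : ∀ z, F z ∈ coneE P := fun z => by
    obtain ⟨h1, h2⟩ := hFf z
    exact (mem_coneE hP).2 ⟨h1, h2 ▸ hfX z⟩
  obtain ⟨h1, h2⟩ := hFf z
  by_contra hQz
  have hQF : eval ((LE N).symm (F z)) Q ≠ 0 := by
    intro h0
    apply hQz
    rw [h2]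
    exact (Pool.Agent.AD.P.vanishes_iff hQ (x := F z) h1).2 h0
  obtain ⟨a, b, hab⟩ := hne
  apply hab
  obtain ⟨c, hc⟩ := h F hFd hFX ⟨z, hQF⟩ a b
  obtain ⟨ha1, ha2⟩ := hFf a
  obtain ⟨hb1, hb2⟩ := hFf b
  rw [ha2, hb2, Projectivization.mk_eq_mk_iff']
  exact ⟨c, by rw [hc, map_smul]⟩

theorem picard_pn (hP : Homog P) {Q : MvPolynomial (Fin (N + 1)) ℂ} {e : ℕ} (hQ : Q.IsHomogeneous e)
    (h : ∀ F : ℂ → EN N, Curve (coneE P) (ball 0 1 \ {0}) F → (∃ z ∈ ball (0 : ℂ) 1 \ {0}, eval ((LE N).symm (F z)) Q ≠ 0) →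
      ∃ G : ℂ → EN N, AnalyticAt ℂ G 0 ∧ G 0 ≠ 0 ∧ ∀ᶠ z in 𝓝[≠] (0 : ℂ), ∃ k : ℂ, k ≠ 0 ∧ G z = k • F z)
    (f : ℂ → PN N) (hf : HolomorphicInto f puncturedDisc) (hfX : ∀ z ∈ puncturedDisc, f z ∈ projVar P) (hne : ∃ z ∈ puncturedDisc, ¬ VanishesAt Q (f z)) :
    ∃ g : ℂ → PN N, HolomorphicInto g (ball 0 1) ∧ ∀ z ∈ puncturedDisc, g z = f z := by
  refine Pool.Agent.H19T.extends_of_cone hP (D := {x | eval ((LE N).symm x) Q = 0}) (Ξ := {x | VanishesAt Q x}) ?_ ?_ h f hf hfX hne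
  · intro y hy _
    exact Pool.Agent.AD.P.vanishes_iff hQ hy
  · intro F z hF hfr
    have h1 : AnalyticAt ℂ (fun w => Pool.Agent.AD.P.fQ Q (F w)) z :=
      AnalyticAt.comp (g := Pool.Agent.AD.P.fQ Q) (f := F) (Pool.Agent.AD.P.fQ_analytic Q (F z)) hF.1
    exact h1.frequently_zero_iff_eventually_zero.1 hfr

theorem kob_pn (hP : Homog P) {x : PN N} (hx : x ∈ projVar P)
    (h : ∃ K : ℝ, ∀ᶠ v in 𝓝 (LE N x.rep), ∀ F : ℂ → EN N, DifferentiableOn ℂ F (ball 0 1) → (∀ z ∈ ball (0 : ℂ) 1, F z ∈ coneE P) → F 0 = v → fs (F 0) (deriv F 0) ≤ K) :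
    MetricPositiveAt (projVar P) x := by
  have hX := Pool.Agent.AD.isCone_coneE hP
  obtain ⟨K, hK⟩ := h
  refine ⟨2 * K * Real.sqrt (N + 1), ?_⟩
  have hK' : ∀ᶠ v in 𝓝 x.rep, ∀ F : ℂ → EN N, DifferentiableOn ℂ F (ball 0 1) → (∀ z ∈ ball (0 : ℂ) 1, F z ∈ coneE P) → F 0 = LE N v →
      fs (F 0) (deriv F 0) ≤ K := ((LE N).continuous.tendsto x.rep).eventually hK
  filter_upwards [hK'] with v hv f F hf hfU hF hFf hF0v
  -- a lift
  obtain ⟨F₁, hF1d, hF1f⟩ := Pool.Agent.H36.BP.lift_disc hf (r := 1 / 2) (by norm_num) (by norm_num)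
  have h0mem : (0 : ℂ) ∈ ball (0 : ℂ) (1 / 2) := mem_ball_self (by norm_num)
  have hhalf : ∀ z ∈ ball (0 : ℂ) 1, 2⁻¹ * z ∈ ball (0 : ℂ) (1 / 2) := by
    intro z hz
    rw [mem_ball_zero_iff] at hz ⊢
    rw [norm_mul, norm_inv, Complex.norm_ofNat]
    linarith
  have hF1X : ∀ z ∈ ball (0 : ℂ) (1 / 2), F₁ z ∈ coneE P := by
    intro z hz
    obtain ⟨h1, h2⟩ := hF1f z hz
    have h3 := hfU z (ball_subset_ball (by norm_num) hz)
    rw [h2] at h3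
    exact (mk_mem_projVar hP h1).1 h3
  have hF10 : DifferentiableAt ℂ F₁ 0 := hF1d.differentiableAt (isOpen_ball.mem_nhds h0mem)
  -- comparison of the lifts
  have hne1 : F₁ 0 ≠ 0 := hX.ne_zero (hF1X 0 h0mem)
  obtain ⟨j, hj⟩ : ∃ j, (F₁ 0) j ≠ 0 := by
    by_contra hcon
    push Not at hcon
    exact hne1 (by ext i; exact hcon i)
  have hF1a : AnalyticAt ℂ F₁ 0 := hF1d.analyticAt (isOpen_ball.mem_nhds h0mem)
  have hc1 : AnalyticAt ℂ (fun w => F₁ w j) 0 := analyticAt_pi_iff.mp (Pool.Agent.H36.BP.analyticAt_ofLp hF1a) j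
  have hc2 : AnalyticAt ℂ (fun w => F w j) 0 := analyticAt_pi_iff.mp hF j
  obtain ⟨k, hk⟩ : ∃ k : ℂ → ℂ, k = fun w => F w j / F₁ w j := ⟨_, rfl⟩
  have hka : AnalyticAt ℂ k 0 := by rw [hk]; exact hc2.div hc1 hj
  have hrel : ∀ᶠ w in 𝓝 (0 : ℂ), (WithLp.toLp 2 (F w) : EN N) = k w • F₁ w ∧ k w ≠ 0 := by
    filter_upwards [hFf, isOpen_ball.mem_nhds h0mem, hc1.continuousAt.eventually_ne hj] with w h1 h2 h3
    obtain ⟨h4, h5⟩ := h1
    obtain ⟨h6, h7⟩ := hF1f w h2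
    rw [h5, Projectivization.mk_eq_mk_iff'] at h7
    obtain ⟨a, ha⟩ := h7
    have ha' : ∀ i, a * F₁ w i = F w i := fun i => congrFun ha i
    have hka' : k w = a := by
      rw [hk]
      simp only
      rw [← ha' j]
      field_simp
    refine ⟨?_, ?_⟩
    · rw [hka']
      ext i
      exact (ha' i).symm
    · rw [hka']
      rintro rfl
      apply h4
      funext i
      rw [← ha' i, zero_mul]
      rfl
  have hdF : deriv (fun w => (WithLp.toLp 2 (F w) : EN N)) 0 = k 0 • deriv F₁ 0 + deriv k 0 • F₁ 0 := by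
    have h1 : (fun w => (WithLp.toLp 2 (F w) : EN N)) =ᶠ[𝓝 0] fun w => k w • F₁ w := hrel.mono fun w hw => hw.1
    rw [h1.deriv_eq]
    exact (hka.differentiableAt.hasDerivAt.smul hF10.hasDerivAt).deriv
  have hdF2 : deriv (fun w => (WithLp.toLp 2 (F w) : EN N)) 0 = WithLp.toLp 2 (deriv F 0) := by
    have h1 : HasDerivAt F (deriv F 0) 0 := hF.differentiableAt.hasDerivAt
    exact ((LE N : (Fin (N + 1) → ℂ) →L[ℂ] EN N).hasFDerivAt.comp_hasDerivAt (0 : ℂ) h1).deriv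
  obtain ⟨hk0, hk1⟩ := hrel.self_of_nhds
  have hF0 : (WithLp.toLp 2 (F 0) : EN N) ≠ 0 := by
    rw [hk0]
    exact smul_ne_zero hk1 hne1
  obtain ⟨a, ha⟩ := Pool.Agent.H22.WL.dist_line (x := (WithLp.toLp 2 (F 0) : EN N)) (v := WithLp.toLp 2 (deriv F 0)) hF0
  have hfs2 : fs (WithLp.toLp 2 (F 0) : EN N) (WithLp.toLp 2 (deriv F 0)) = fs (F₁ 0) (deriv F₁ 0) := by
    rw [← hdF2, hdF, hk0, Pool.Agent.H36.BP.fs_inv hne1 _ hk1]
  -- the disc
  have hd1 : DifferentiableOn ℂ (fun z => k 0 • F₁ (2⁻¹ * z)) (ball 0 1) := by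
    intro z hz
    have h1 : DifferentiableAt ℂ F₁ (2⁻¹ * z) := hF1d.differentiableAt (isOpen_ball.mem_nhds (hhalf z hz))
    exact ((h1.comp z (differentiableAt_id.const_mul _)).const_smul (k 0)).differentiableWithinAt
  have hb := hv _ hd1 (fun z hz => hX.smul_mem _ (hF1X _ (hhalf z hz)) _ hk1) (by
    rw [mul_zero, ← hk0, ← hF0v]
    rfl)
  have hder : deriv (fun z => k 0 • F₁ (2⁻¹ * z)) 0 = k 0 • ((2⁻¹ : ℂ) • deriv F₁ 0) := by
    have h3 : HasDerivAt (fun ζ : ℂ => 2⁻¹ * ζ) (2⁻¹ : ℂ) 0 := by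
      simpa using (hasDerivAt_id (0 : ℂ)).const_mul (2⁻¹ : ℂ)
    have h4 : HasDerivAt F₁ (deriv F₁ 0) (2⁻¹ * 0) := by simpa using hF10.hasDerivAt
    exact ((h4.scomp (0 : ℂ) h3).const_smul (k 0)).deriv
  have hinv := Pool.Agent.H36.BP.fs_inv hne1 ((2⁻¹ : ℂ) • deriv F₁ 0) hk1
  have hfs1 : fs (F₁ 0) (deriv F₁ 0) ≤ 2 * K := by
    have h5 : fs (k 0 • F₁ 0) (k 0 • ((2⁻¹ : ℂ) • deriv F₁ 0)) = fs (F₁ 0) ((2⁻¹ : ℂ) • deriv F₁ 0) := by
      have h6 := hinv 0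
      rwa [zero_smul, add_zero] at h6
    simp only [mul_zero] at hb
    rw [hder, h5, Pool.Agent.H36.BP.fs_smul_right, norm_inv, Complex.norm_ofNat] at hb
    linarith
  refine ⟨a, ?_⟩
  have h1 : ‖deriv F 0 - a • F 0‖ ≤ ‖(WithLp.toLp 2 (deriv F 0) : EN N) - a • WithLp.toLp 2 (F 0)‖ :=
    Pool.Agent.H22.WL.norm_ofLp_le ((WithLp.toLp 2 (deriv F 0) : EN N) - a • WithLp.toLp 2 (F 0))
  have h2 : ‖(WithLp.toLp 2 (F 0) : EN N)‖ ≤ Real.sqrt (N + 1) * ‖F 0‖ := Pool.Agent.H14.V.norm_le_ofLp (WithLp.toLp 2 (F 0) : EN N)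
  have h4 : fs (WithLp.toLp 2 (F 0) : EN N) (WithLp.toLp 2 (deriv F 0)) ≤ 2 * K := by rw [hfs2]; exact hfs1
  have h5 : 0 ≤ 2 * K := (Pool.Agent.H36.BP.fs_nonneg _ _).trans h4
  calc ‖deriv F 0 - a • F 0‖
      ≤ ‖(WithLp.toLp 2 (deriv F 0) : EN N) - a • WithLp.toLp 2 (F 0)‖ := h1
    _ = fs (WithLp.toLp 2 (F 0) : EN N) (WithLp.toLp 2 (deriv F 0)) * ‖(WithLp.toLp 2 (F 0) : EN N)‖ := ha
    _ ≤ (2 * K) * (Real.sqrt (N + 1) * ‖F 0‖) := mul_le_mul h4 h2 (norm_nonneg _) h5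
    _ = 2 * K * Real.sqrt (N + 1) * ‖F 0‖ := by ring

/-- A form which is not in the prime ideal `P` (homogeneous or not) is not `0` at some point of the variety of `P`, if the variety has dimension at least `1`. -/
theorem exists_point_of_dim [hPp : P.IsPrime] {n : ℕ} (hdim : ∃ z : Fin (n + 1) → FunField P, IsTranscendenceBasis ℂ z)
    {Q : MvPolynomial (Fin (N + 1)) ℂ} {e : ℕ} (hQ : Q.IsHomogeneous e) (hQP : Q ∉ P) : ∃ x ∈ projVar P, ¬ VanishesAt Q x := by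
  let _ : GradedAlgebra (homogeneousSubmodule (Fin (N + 1)) ℂ) := MvPolynomial.gradedAlgebra
  obtain ⟨R, hR⟩ : ∃ R : Ideal (MvPolynomial (Fin (N + 1)) ℂ), R = (P.homogeneousCore (homogeneousSubmodule (Fin (N + 1)) ℂ)).toIdeal := ⟨_, rfl⟩
  have hRP : R ≤ P := by rw [hR]; exact Ideal.toIdeal_homogeneousCore_le _ P
  have hRp : R.IsPrime := by rw [hR]; exact Ideal.IsPrime.homogeneousCore hPp
  have hRh : Homog R := by
    intro p hp n
    have h1 : R.IsHomogeneous (homogeneousSubmodule (Fin (N + 1)) ℂ) := by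
      rw [hR]
      exact (P.homogeneousCore (homogeneousSubmodule (Fin (N + 1)) ℂ)).isHomogeneous
    exact (MvPolynomial.mem_iff_homogeneousComponent_mem h1 p).1 hp n
  obtain ⟨i, hi⟩ := Pool.Agent.H62.FC.exists_X_notMem (P := P) (r := n + 1) (by omega) hdim
  obtain ⟨x, hx, hxQ⟩ := Pool.Agent.H17EF.exists_point (P := R) hRh ⟨i, fun h => hi (hRP h)⟩ (fun h => hQP (hRP h)) hQ
  refine ⟨x, fun S hS m hm => hx S ?_ m hm, hxQ⟩
  rw [hR]
  exact Ideal.mem_homogeneousCore_of_homogeneous_of_mem ⟨m, hm⟩ hS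

theorem gglc_pn [P.IsPrime] {n : ℕ} (hdim : ∃ z : Fin (n + 1) → FunField P, IsTranscendenceBasis ℂ z) {Q : MvPolynomial (Fin (N + 1)) ℂ} {e : ℕ} (hQ : Q.IsHomogeneous e) (hQP : Q ∉ P)
    (hgt : IsLogGeneralType (K := FunField P) (k := n + 1) fun _ => False)
    (hpic : ∀ f : ℂ → PN N, HolomorphicInto f puncturedDisc → (∀ z ∈ puncturedDisc, f z ∈ projVar P) → (∃ z ∈ puncturedDisc, ¬ VanishesAt Q (f z)) →
      ∃ g : ℂ → PN N, HolomorphicInto g (ball 0 1) ∧ ∀ z ∈ puncturedDisc, g z = f z)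
    (hbr : ∀ f : ℂ → PN N, HolomorphicInto f Set.univ → (∀ z, f z ∈ projVar P) → (∃ z w, f z ≠ f w) → ∀ z, VanishesAt Q (f z)) :
    Pool.Agent.H22.TB.GGLC P {x | x ∈ projVar P ∧ VanishesAt Q x} := by
  have hcl : Pool.Agent.H17.ZariskiClosedIn (projVar P) {x | x ∈ projVar P ∧ VanishesAt Q x} := by
    refine ⟨{Q}, fun R hR => ⟨e, by rw [Set.mem_singleton_iff.1 hR]; exact hQ⟩, ?_⟩
    ext x
    simp
  have hbr' : ∀ f : ℂ → PN N, HolomorphicInto f Set.univ → (∀ z, f z ∈ projVar P) → (∃ z w, f z ≠ f w) →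
      ∀ z, f z ∈ {x | x ∈ projVar P ∧ VanishesAt Q x} := fun f hf hfX hne z => ⟨hfX z, hbr f hf hfX hne z⟩
  refine ⟨hcl, ?_, ?_, ?_, hbr', ?_⟩
  · intro heq
    obtain ⟨x, hx, hxQ⟩ := exists_point_of_dim hdim hQ hQP
    rw [← heq] at hx
    exact hxQ hx.2
  · rintro w - ⟨z', hz'⟩
    obtain ⟨z, hz⟩ := hdim
    obtain rfl := Pool.Agent.H22.TB.eq_of_basis hz hz'
    exact hgt
  · rintro f hf hfX ⟨z, hz, hfz⟩
    exact hpic f hf hfX ⟨z, hz, fun hmem => hfz ⟨hfX z hz, hmem⟩⟩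
  · intro R _ hR hPR hsub hz
    exact Pool.Agent.AD.P.strongly_one hcl hbr' R hR hPR hsub hz

end Pool.Agent.G3
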