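import Pool.Agent.G3.F.Hyp
import Pool.Agent.TG.GuL
import Pool.Agent.TG.FMain

/-!
# G3 F QEx: the form `Q`

`Csf.fin`, `Csf.tr`: the finite group of the permutations of `S` (modulo equality off `D`) gives `M ≥ 1` with `Φ (y + M l) = Φ y` for `y ∉ D`, `l ∈ Λ`, `Φ ∈ S` (as `period` in `Z/LocA`).
`exists_form_of_sections` with `Γ = M Λ` gives `Q₁`; `Q = Q₁ R` (degree `≥ 1`), `Q ∉ P` (prime).  `c > 0` small: `‖eval x Q‖ ≤ C ‖x‖ ^ e` (`TG.norm_eval_le`; the norm of `EN N` dominates the sup norm).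
The function is nowhere locally `0` on the cone because `Q ∉ P` (in a chart: `exists_coneChart`).
-/

set_option autoImplicit false

open Topology Filter Metric MvPolynomial

namespace Pool.Agent.G3

open Pool.Agent.H17 (PN VanishesAt HolomorphicInto puncturedDisc)
open Pool.Agent.H62.FC (Homog)
open Pool.Agent.H17LG.Variety (FunField IsLogGeneralType)
open Pool.Agent.H17EF (projVar coneE LE mem_coneE mk_mem_projVar)
open Pool.Agent.H36.BP (EN fs wd Sub Curve)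
open Pool.Agent.H14.PP (IsCone CurveAt Tan)
open Pool.Agent.H62.EF (MN pr)
open Pool.Agent.AD (Vd Chart Charts uV IsHolomorphicTorusMap)
open Pool.Agent.TG (TMap Lat Geo Gd VForm Fb)
open Pool.Agent.TGF (Cn Over IsDiscriminant)
open Pool.Agent.G3F

/-- a common period of the finitely many sections -/
private theorem period_all {N k : ℕ} {X : Set (EN N)} {Λ : AddSubgroup (Vd (k + 1))} {u : EN N → Vd (k + 1)} {D B : Set (Vd (k + 1))}
    {S : Set (Vd (k + 1) → MN N)} (G : Geo X Λ u D B) (hS : Csf X Λ u D S) :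
    ∃ M : ℕ, 1 ≤ M ∧ ∀ Φ ∈ S, ∀ l ∈ Λ, ∀ y ∉ D, Φ (y + M • l) = Φ y := by
  classical
  set T := hS.fin.toFinset with hT
  refine ⟨T.card.factorial, Nat.factorial_pos _, fun Φ hΦ l hl => ?_⟩
  have h1 : ∀ m : ℕ, ∃ f ∈ S, ∀ y ∉ D, f y = Φ (y + m • l) := fun m => hS.tr Φ hΦ (m • l) (Λ.nsmul_mem hl m)
  choose f hf hfe using h1
  obtain ⟨i, hi, j, hj, hij, hfij⟩ := Finset.exists_ne_map_eq_of_card_lt_of_maps_to (s := Finset.range (T.card + 1)) (t := T) (f := f)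
    (by rw [Finset.card_range]; omega) (fun m _ => by rw [hT]; simpa using hf m)
  obtain ⟨m, hm1, hm2, hm⟩ : ∃ m : ℕ, 1 ≤ m ∧ m ≤ T.card ∧ ∀ y ∉ D, Φ (y + m • l) = Φ y := by
    have key : ∀ i j : ℕ, i < j → j ≤ T.card → f i = f j → ∃ m : ℕ, 1 ≤ m ∧ m ≤ T.card ∧ ∀ y ∉ D, Φ (y + m • l) = Φ y := by
      intro i j hij hj hfij
      refine ⟨j - i, by omega, by omega, fun y hy => ?_⟩
      have hy' : y - i • l ∉ D := by
        intro h
        have h2 := G.D_inv _ h (i • l) (Λ.nsmul_mem hl i)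
        rw [sub_add_cancel] at h2
        exact hy h2
      have h2 := hfe i _ hy'
      have h3 := hfe j _ hy'
      rw [hfij, h3] at h2
      rw [sub_add_cancel] at h2
      rw [← h2]
      congr 1
      have e : j = i + (j - i) := by omega
      conv_rhs => rw [e, add_smul]
      abel
    rw [Finset.mem_range] at hi hj
    rcases lt_or_gt_of_ne hij with h | h
    · exact key i j h (by omega) hfij
    · exact key j i h (by omega) hfij.symm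
  obtain ⟨n, hn⟩ := Nat.dvd_factorial hm1 hm2
  have h2 : ∀ t : ℕ, ∀ y ∉ D, Φ (y + (m * t) • l) = Φ y := by
    intro t
    induction t with
    | zero =>
      intro y _
      rw [mul_zero, zero_smul, add_zero]
    | succ t ih =>
      intro y hy
      have hy' : y + (m * t) • l ∉ D := by
        intro h
        exact hy ((G.D_sub (Λ.nsmul_mem hl _)).1 h)
      rw [mul_add, mul_one, add_smul, ← add_assoc, hm _ hy', ih y hy]
  rw [hn]
  exact h2 n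

private theorem vanishes_mk {N : ℕ} {Q : MvPolynomial (Fin (N + 1)) ℂ} {e : ℕ} (hQ : Q.IsHomogeneous e) {x : Fin (N + 1) → ℂ} (hx : x ≠ 0)
    (h : VanishesAt Q (Projectivization.mk ℂ x hx)) : eval x Q = 0 := by
  obtain ⟨a, ha, hrep⟩ := Pool.Agent.H36.BP.rep_mk hx
  unfold VanishesAt at h
  rw [hrep, Pool.Agent.H22.AlgD.eval_smul_form hQ] at h
  exact (mul_eq_zero.1 h).resolve_left (pow_ne_zero _ ha)

theorem exists_Q {N : ℕ} {P : Ideal (MvPolynomial (Fin (N + 1)) ℂ)} [P.IsPrime] (hP : Homog P) (hdim : ∃ z : Fin 3 → FunField P, IsTranscendenceBasis ℂ z)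
    (hsmooth : Pool.Agent.AD.NC.IsSmooth P 3) {Λ : AddSubgroup (Cn (1 + 1))} {u : PN N → Cn (1 + 1) ⧸ Λ} {D B : Set (Cn (1 + 1))}
    (G : Geo (coneE P) Λ (uV Λ u) D B) {S : Set (Vd (1 + 1) → MN N)} (hS : Csf (coneE P) Λ (uV Λ u) D S)
    (hR : ∃ (e : ℕ) (R : MvPolynomial (Fin (N + 1)) ℂ), R.IsHomogeneous e ∧ R ∉ P ∧
      ∀ x ∈ projVar P, (∃ y ∈ D, u x = (y : Cn (1 + 1) ⧸ Λ)) → VanishesAt R x) :
    ∃ (e : ℕ) (Q : MvPolynomial (Fin (N + 1)) ℂ) (c : ℝ), Q.IsHomogeneous e ∧ Q ∉ P ∧ 0 < c ∧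
      QD (coneE P) Λ (uV Λ u) D (fun x => (c : ℂ) * eval ((LE N).symm x) Q) e ∧
      (∀ x ∈ coneE P, ∃ᶠ x' in 𝓝 x, x' ∈ coneE P ∧ (c : ℂ) * eval ((LE N).symm x') Q ≠ 0) ∧
      (∀ Φ ∈ S, ∀ y ∉ D, ∀ x ∈ coneE P, pr x = Φ y → (c : ℂ) * eval ((LE N).symm x) Q = 0) ∧
      ∀ x ∈ projVar P, (∃ y ∈ D, u x = (y : Cn (1 + 1) ⧸ Λ)) → VanishesAt Q x := by
  classical
  obtain ⟨z, hz⟩ := hdim
  obtain ⟨e, R, hRe, hRP, hRv⟩ := hR
  obtain ⟨j₀, hj₀⟩ := Pool.Agent.H92.GT.Proj.exists_coordFun_ne_zero P z hz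
  have hXP : ∃ i, (MvPolynomial.X i : MvPolynomial (Fin (N + 1)) ℂ) ∉ P := ⟨j₀, Pool.Agent.H17R.coordFun_ne_zero_iff.1 hj₀⟩
  obtain ⟨M, hM, hMp⟩ := period_all G hS
  obtain ⟨J, Φ, -, hΦ⟩ := hS.fin.fin_param
  have hΦS : ∀ j, Φ j ∈ S := fun j => by rw [← hΦ]; exact ⟨j, rfl⟩
  have hM0 : (0 : ℝ) < M := by exact_mod_cast hM
  obtain ⟨Γ, hΓ⟩ : ∃ Γ : AddSubgroup (Vd 2), Γ = Λ.map (nsmulAddMonoidHom (α := Vd 2) M) := ⟨_, rfl⟩
  have hΓmem : ∀ g : Vd 2, g ∈ Γ → ∃ l ∈ Λ, g = M • l := by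
    intro g hg
    rw [hΓ] at hg
    obtain ⟨l, hl, rfl⟩ := hg
    exact ⟨l, hl, rfl⟩
  have hcpt : ∃ r : ℝ, ∀ y : Vd 2, ∃ l ∈ Γ, ‖y - l‖ ≤ r := by
    obtain ⟨r, hr, h⟩ := G.lat.cpt
    refine ⟨M * r, fun y => ?_⟩
    obtain ⟨l, hl, hl'⟩ := h ((M : ℝ)⁻¹ • y)
    refine ⟨M • l, by rw [hΓ]; exact ⟨l, hl, rfl⟩, ?_⟩
    have e1 : y - M • l = (M : ℝ) • ((M : ℝ)⁻¹ • y - l) := by
      rw [smul_sub, smul_inv_smul₀ hM0.ne']
      congr 1
      exact (Nat.cast_smul_eq_nsmul ℝ M l).symm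
    rw [e1, norm_smul, Real.norm_of_nonneg hM0.le]
    exact mul_le_mul_of_nonneg_left hl' hM0.le
  have hinv : ∀ y ∈ D, ∀ l ∈ Γ, y + l ∈ D := by
    intro y hy l hl
    obtain ⟨l', hl', rfl⟩ := hΓmem l hl
    exact G.D_inv y hy _ (Λ.nsmul_mem hl' M)
  have hper : ∀ j, ∀ l ∈ Γ, ∀ y ∉ D, Φ j (y + l) = Φ j y := by
    intro j l hl y hy
    obtain ⟨l', hl', rfl⟩ := hΓmem l hl
    exact hMp _ (hΦS j) l' hl' y hy
  have ha : (Pi.single 0 1 : Vd 2) ≠ 0 := by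
    intro h
    have := congrFun h 0
    simp at this
  have hmer : ∀ j, ∀ y₀ : Vd 2, ∃ φ : Vd 2 → EN N, AnalyticAt ℂ φ y₀ ∧ (¬ ∀ᶠ z in 𝓝 y₀, φ z = 0) ∧
      ∀ᶠ z in 𝓝 y₀, z ∉ D → φ z ≠ 0 → Φ j z = pr (φ z) := by
    intro j y₀
    obtain ⟨φ, hφ, hφ0, hφp⟩ := hS.mer _ (hΦS j) _ ha y₀
    refine ⟨φ, hφ, fun hcon => ?_, hφp⟩
    have ht : Tendsto (fun w : ℂ => y₀ + w • (Pi.single 0 1 : Vd 2)) (𝓝 0) (𝓝 y₀) := by
      have : Continuous fun w : ℂ => y₀ + w • (Pi.single 0 1 : Vd 2) := by fun_prop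
      exact this.tendsto' _ _ (by simp)
    exact hφ0 ((ht.eventually hcon).mono fun w hw => by simpa using hw)
  have hX0 : ∀ x ∈ coneE P, x ≠ 0 := by
    intro x hx h
    exact hx.1 (by rw [h, map_zero])
  have hhol : ∀ j, ∀ y₀ ∉ D, ∃ φ : Vd 2 → EN N, AnalyticAt ℂ φ y₀ ∧ φ y₀ ≠ 0 ∧ ∀ᶠ z in 𝓝 y₀, Φ j z = pr (φ z) := by
    intro j y₀ hy₀
    obtain ⟨φ, hφ, h⟩ := hS.hol _ (hΦS j) y₀ hy₀
    exact ⟨φ, hφ, hX0 _ h.self_of_nhds.1, h.mono fun z hz => hz.2.1⟩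
  obtain ⟨d, Q₁, hd, hQ₁, hQ₁P, hQ₁v⟩ := exists_form_of_sections (n := 2) (z := z) hz hXP hcpt G.D_closed hinv G.D_thin hper hmer hhol
  have hQ : (Q₁ * R).IsHomogeneous (d + e) := hQ₁.mul hRe
  have hQP : Q₁ * R ∉ P := by
    intro h
    rcases Ideal.IsPrime.mem_or_mem inferInstance h with h1 | h1
    · exact hQ₁P h1
    · exact hRP h1
  have hRv' : ∀ x ∈ projVar P, (∃ y ∈ D, u x = (y : Cn (1 + 1) ⧸ Λ)) → VanishesAt (Q₁ * R) x := by
    intro x hx hy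
    have h := hRv x hx hy
    unfold VanishesAt at *
    rw [map_mul, h, mul_zero]
  obtain ⟨C, hC, hCb⟩ := Pool.Agent.TG.norm_eval_le hQ
  have hc0 : (0 : ℝ) < (C + 1)⁻¹ := inv_pos.2 (by linarith)
  refine ⟨d + e, Q₁ * R, (C + 1)⁻¹, hQ, hQP, hc0, ?_, ?_, ?_, hRv'⟩
  · refine ⟨by omega, ?_, ?_, ?_, ?_⟩
    · have h1 : Differentiable ℂ fun x : EN N => eval ((LE N).symm x) (Q₁ * R) := by
        intro x
        have h2 : AnalyticAt ℂ (fun y : EN N => eval ((LE N).symm y) (Q₁ * R)) x :=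
          Pool.Agent.H22.AlgD.analyticAt_eval (((LE N).symm : EN N →L[ℂ] (Fin (N + 1) → ℂ)).analyticAt x) (Q₁ * R)
        exact h2.differentiableAt
      exact h1.const_mul _
    · intro c x
      show _ * eval ((LE N).symm (c • x)) (Q₁ * R) = _
      rw [map_smul, Pool.Agent.H22.AlgD.eval_smul_form hQ]
      ring
    · intro x hx
      rw [norm_mul, Complex.norm_real, Real.norm_of_nonneg hc0.le]
      have h1 := hCb ((LE N).symm x)
      have h2 : ‖(LE N).symm x‖ ≤ ‖x‖ := Pool.Agent.H22.WL.norm_ofLp_le x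
      have h3 : ‖eval ((LE N).symm x) (Q₁ * R)‖ ≤ (C + 1) * ‖x‖ ^ (d + e) := by
        refine h1.trans (mul_le_mul (by linarith) (pow_le_pow_left₀ (norm_nonneg _) h2 _) (by positivity) (by linarith))
      calc (C + 1)⁻¹ * ‖eval ((LE N).symm x) (Q₁ * R)‖ ≤ (C + 1)⁻¹ * ((C + 1) * ‖x‖ ^ (d + e)) := mul_le_mul_of_nonneg_left h3 hc0.le
        _ = ‖x‖ ^ (d + e) := by
          rw [← mul_assoc, inv_mul_cancel₀ (by linarith), one_mul]
    · intro x hx y hy hxy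
      obtain ⟨h1, h2⟩ := (mem_coneE hP).1 hx
      have h3 : u (Projectivization.mk ℂ ((LE N).symm x) h1) = (y : Cn (1 + 1) ⧸ Λ) := by
        rw [← Pool.Agent.AD.uV_eq Λ u h1]
        exact Pool.Agent.AD.sub_mem_iff.1 hxy
      show _ * eval ((LE N).symm x) (Q₁ * R) = 0
      rw [vanishes_mk hQ h1 (hRv' _ h2 ⟨y, hy, h3⟩), mul_zero]
  · intro x hx
    obtain ⟨l, hl⟩ : ∃ l, (LE N).symm x l ≠ 0 := by
      by_contra h
      push Not at h
      exact hx.1 (funext h)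
    obtain ⟨I, σ, h1, h2, h3, -, h5⟩ := Pool.Agent.H13.SM.exists_coneChart hP (n := 3) hz hsmooth hx.2 hl
    have h6 := h5 _ _ hQ hQP
    have ht : Tendsto (fun w => (LE N) (σ w)) (𝓝 0) (𝓝 x) := by
      have h7 : Tendsto (fun w => (LE N) (σ w)) (𝓝 0) (𝓝 ((LE N) (σ 0))) := (LE N).continuous.continuousAt.tendsto.comp h1.continuousAt.tendsto
      rwa [h2, ContinuousLinearEquiv.apply_symm_apply] at h7
    refine ht.frequently ?_
    refine (Filter.not_eventually.1 h6 |>.and_eventually h3).mono ?_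
    rintro w ⟨hw1, hw2, hw3, -⟩
    have e1 : (LE N).symm ((LE N) (σ w)) = σ w := (LE N).symm_apply_apply _
    refine ⟨⟨?_, ?_⟩, ?_⟩
    · rw [e1]
      intro h
      apply hl
      rw [← hw3, h]
      rfl
    · intro Q hQ
      rw [e1]
      exact hw2 Q hQ
    · rw [e1]
      exact mul_ne_zero (by exact_mod_cast hc0.ne') hw1
  · intro Ψ hΨ y hy x hx hxy
    obtain ⟨j, rfl⟩ : ∃ j, Φ j = Ψ := by
      rw [← hΦ] at hΨ
      exact hΨ
    rw [map_mul, hQ₁v j y hy x (hX0 x hx) hxy, zero_mul, mul_zero]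

end Pool.Agent.G3
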