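import Pool.Agent.G3.F.ConE
import Pool.Agent.G3.F.ConP
import Pool.Agent.G3.F.ConJ
import Pool.Agent.G3.F.ConD
import Pool.Agent.G3.F.QEx
import Pool.Agent.G3.F.Br
import Pool.Agent.G3.F.Pn
import Pool.Agent.G3.F.Ln
import Pool.Agent.G3.F.End
import Pool.Agent.G3.F.Pic
import Pool.Agent.G3.Z.LctD
import Pool.Agent.G3.Z.Jbd
import Pool.Agent.G3.R.Root
import Pool.Agent.G3.X.Crs
import Pool.Agent.G3.PS.Main

/-!
# G3 F Main: the final theorem

`X` is a smooth projective threefold, `u` a holomorphic map to a complex torus `ℂ² / Λ` without elliptic curves.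
-/

set_option autoImplicit false

open Topology Filter Metric MvPolynomial

namespace Pool.Agent.G3

open Pool.Agent.H17 (PN VanishesAt HolomorphicInto puncturedDisc)
open Pool.Agent.H62.FC (Homog)
open Pool.Agent.H17LG.Variety (FunField IsLogGeneralType)
open Pool.Agent.H17EF (projVar coneE LE mem_coneE mk_mem_projVar)
open Pool.Agent.H36.BP (EN fs wd Sub Curve)
open Pool.Agent.H14.PP (IsCone CurveAt Tan)
open Pool.Agent.H62.EF (MN pr)
open Pool.Agent.AD (Vd Chart Charts uV IsHolomorphicTorusMap)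
open Pool.Agent.TG (TMap Lat Geo Gd VForm Fb)
open Pool.Agent.TGF (Cn Over IsDiscriminant)
open Pool.Agent.G3F

theorem simp_of (Λ : AddSubgroup (Cn (1 + 1))) (h : Pool.Agent.AD.NoEllipticCurve Λ) : Simp Λ :=
  fun a ha ω₁ ω₂ h1 h2 hl => ha (h a ω₁ ω₂ hl h1 h2)

theorem main {N : ℕ} (P : Ideal (MvPolynomial (Fin (N + 1)) ℂ)) [P.IsPrime] (hP : Homog P)
    (hdim : ∃ z : Fin 3 → FunField P, IsTranscendenceBasis ℂ z) (hsmooth : Pool.Agent.AD.NC.IsSmooth P 3)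
    (Λ : AddSubgroup (Cn (1 + 1))) [DiscreteTopology Λ] (hspan : Submodule.span ℝ (Λ : Set (Cn (1 + 1))) = ⊤) (hsimple : Pool.Agent.AD.NoEllipticCurve Λ)
    (u : PN N → Cn (1 + 1) ⧸ Λ) (hu : IsHolomorphicTorusMap (projVar P) Λ u) (D B : Set (Cn (1 + 1))) (hD : IsSingularLocus (projVar P) Λ u D B)
    (hR : ∃ (e : ℕ) (R : MvPolynomial (Fin (N + 1)) ℂ), R.IsHomogeneous e ∧ R ∉ P ∧
      ∀ x ∈ projVar P, (∃ y ∈ D, u x = (y : Cn (1 + 1) ⧸ Λ)) → VanishesAt R x)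
    (hE : HasTopForms (projVar P) Λ u D) (hS : HasSymmetricForms (projVar P) Λ u D) (hJ : HasJetForms (projVar P) Λ u) :
    ∃ Q : MvPolynomial (Fin (N + 1)) ℂ, TorusHyperbolic P Λ u D Q := by
  have G : Geo (coneE P) Λ (uV Λ u) D B := geo_of_sing P hP hdim hsmooth Λ hspan u hu D B hD hS
  obtain ⟨Γ, r, J, W, α, hα⟩ := frm_of (D := D) hP G.lat hE
  obtain ⟨m, J', r', S, W', hPD⟩ := pdata_of (D := D) hP hS
  obtain ⟨C, hPS⟩ := ps_of_pdata G.cone G.charts G.tor G.lat G.D_closed hPD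
  obtain ⟨⟨T, hT⟩, hpl, hldi⟩ := end_out G hD.analytic hD.small (simp_of Λ hsimple) hα hPS fun ν hν => jform_of hP hJ ν hν
  obtain ⟨e, Q, c, hQh, hQP, hc, hQD, hQne, hQS, hQR⟩ := exists_Q hP hdim hsmooth G hT hR
  obtain ⟨c₀, hjbd⟩ := jbd_of_frm G hα
  have hLCT := lct (Sit.mk G (simp_of Λ hsimple) hldi hPS hQD hQne hT hQS hjbd hpl (Pool.Agent.GX.crs G))
  obtain ⟨C₁, hC₁, hroot⟩ := root G.cone hPS hQD hLCT
  have hcc : (c : ℂ) ≠ 0 := by exact_mod_cast hc.ne'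
  have hbr := brody_pn (P := P) hP hQh fun F hF hFX h0 z w => by
    obtain ⟨z₀, hz₀⟩ := h0
    exact brody_cone G.cone G.tor G.lat G.D_closed hPS hQD hroot hF hFX ⟨z₀, mul_ne_zero hcc hz₀⟩ z w
  have hpic := picard_pn (P := P) hP hQh fun F hF h0 => by
    obtain ⟨z₀, hz₀, h1⟩ := h0
    exact picard_cone G hPS hQD hroot hLCT hF ⟨z₀, hz₀, mul_ne_zero hcc h1⟩
  have hggl : IsLogGeneralType (K := FunField P) (k := 3) (fun _ => False) → Pool.Agent.H22.TB.GGLC P {x | x ∈ projVar P ∧ VanishesAt Q x} := fun hgt =>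
    gglc_pn hdim hQh hQP hgt hpic hbr
  refine ⟨Q, ⟨⟨e, hQh⟩, hQP⟩, hQR, lines_pn hP hT, hbr, hpic, ?_, hggl,
    fun hgt M L P' _ R _ q hP' hR' hz' hw ⟨i⟩ hq hgt' => Pool.Agent.H23.GU.gglc_virtual hdim (hggl hgt) hP' hz' i hR' hw hgt' hq⟩
  intro x hx hxQ
  refine kob_pn hP hx (kob_cone G.cone G.tor G.lat G.D_closed G.D_inv hPS hQD hroot (x := LE N x.rep) ?_ ?_)
  · have h1 : (LE N).symm (LE N x.rep) = x.rep := (LE N).symm_apply_apply x.rep
    refine (mem_coneE hP).2 ?_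
    rw [h1]
    exact ⟨x.rep_nonzero, by rw [x.mk_rep]; exact hx⟩
  · exact mul_ne_zero hcc (by simpa [VanishesAt] using hxQ)

end Pool.Agent.G3
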